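import Pool.Agent.Prc92.Mean

/-!
# Existence of shift-invariant means: ultrafilter limits of averages over boxes
-/

namespace Prc92

open Finset Filter Topology

/-- average over a box -/
noncomputable def avg (X Y : ℕ) (f : Z2 → ℝ) : ℝ :=
  (∑ i ∈ range (2 * X), ∑ j ∈ range (2 * Y), f ((i : ℤ) - X, (j : ℤ) - Y)) / (4 * X * Y)

lemma avg_add (X Y : ℕ) (f g : Z2 → ℝ) :
    avg X Y (fun z => f z + g z) = avg X Y f + avg X Y g := by
  simp only [avg, Finset.sum_add_distrib, add_div]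

lemma avg_smul (X Y : ℕ) (c : ℝ) (f : Z2 → ℝ) :
    avg X Y (fun z => c * f z) = c * avg X Y f := by
  simp only [avg, ← Finset.mul_sum, mul_div_assoc]

lemma avg_mono (X Y : ℕ) {f g : Z2 → ℝ} (h : ∀ z, f z ≤ g z) : avg X Y f ≤ avg X Y g := by
  unfold avg
  exact div_le_div_of_nonneg_right (Finset.sum_le_sum fun i _ => Finset.sum_le_sum fun j _ => h _)
    (by positivity)

lemma avg_const {X Y : ℕ} (hX : 0 < X) (hY : 0 < Y) (c : ℝ) : avg X Y (fun _ => c) = c := by
  unfold avg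
  simp only [Finset.sum_const, Finset.card_range, nsmul_eq_mul]
  have h1 : (X : ℝ) ≠ 0 := by exact_mod_cast hX.ne'
  have h2 : (Y : ℝ) ≠ 0 := by exact_mod_cast hY.ne'
  push_cast
  field_simp
  ring

lemma avg_abs_le {X Y : ℕ} {f : Z2 → ℝ} {C : ℝ} (hC : ∀ z, |f z| ≤ C) : |avg X Y f| ≤ C := by
  have hC0 : 0 ≤ C := (abs_nonneg _).trans (hC (0, 0))
  rcases Nat.eq_zero_or_pos X with h | hX
  · subst h
    simpa [avg] using hC0
  rcases Nat.eq_zero_or_pos Y with h | hY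
  · subst h
    simpa [avg] using hC0
  rw [abs_le]
  constructor
  · rw [← avg_const hX hY (-C)]
    exact avg_mono X Y fun z => (abs_le.1 (hC z)).1
  · calc avg X Y f ≤ avg X Y (fun _ => C) := avg_mono X Y fun z => (abs_le.1 (hC z)).2
      _ = C := avg_const hX hY C

lemma avg_shift1 {X Y : ℕ} (hX : 0 < X) (hY : 0 < Y) {f : Z2 → ℝ} {C : ℝ} (hC : ∀ z, |f z| ≤ C) :
    |avg X Y (fun z => f (z + (1, 0))) - avg X Y f| ≤ C / X := by
  have h1 : (0 : ℝ) < X := by exact_mod_cast hX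
  have h2 : (0 : ℝ) < Y := by exact_mod_cast hY
  unfold avg
  rw [← sub_div, ← Finset.sum_sub_distrib]
  simp_rw [← Finset.sum_sub_distrib]
  rw [Finset.sum_comm, abs_div, div_le_div_iff₀ (by positivity) h1]
  have e : ∀ j ∈ range (2 * Y), ∑ i ∈ range (2 * X),
      (f (((i : ℤ) - X, (j : ℤ) - Y) + (1, 0)) - f ((i : ℤ) - X, (j : ℤ) - Y))
      = f (((2 * X : ℕ) : ℤ) - X, (j : ℤ) - Y) - f (((0 : ℕ) : ℤ) - X, (j : ℤ) - Y) := by
    intro j _
    rw [← Finset.sum_range_sub (fun i : ℕ => f ((i : ℤ) - X, (j : ℤ) - Y))]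
    refine Finset.sum_congr rfl fun i _ => ?_
    congr 2
    ext
    · simp
      ring
    · simp
  rw [Finset.sum_congr rfl e]
  have h3 : |∑ j ∈ range (2 * Y), (f (((2 * X : ℕ) : ℤ) - X, (j : ℤ) - Y)
      - f (((0 : ℕ) : ℤ) - X, (j : ℤ) - Y))| ≤ ∑ j ∈ range (2 * Y), (2 * C) := by
    refine (Finset.abs_sum_le_sum_abs _ _).trans (Finset.sum_le_sum fun j _ => ?_)
    have := abs_sub (f (((2 * X : ℕ) : ℤ) - X, (j : ℤ) - Y)) (f (((0 : ℕ) : ℤ) - X, (j : ℤ) - Y))
    linarith [hC (((2 * X : ℕ) : ℤ) - X, (j : ℤ) - Y), hC (((0 : ℕ) : ℤ) - X, (j : ℤ) - Y)]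
  rw [Finset.sum_const, Finset.card_range, nsmul_eq_mul] at h3
  have h5 : ((2 * Y : ℕ) : ℝ) * (2 * C) = 4 * Y * C := by
    push_cast
    ring
  rw [h5] at h3
  have h4 : |(4 * X * Y : ℝ)| = 4 * X * Y := abs_of_pos (by positivity)
  rw [h4]
  have h6 := mul_le_mul_of_nonneg_right h3 h1.le
  linarith

lemma avg_shift2 {X Y : ℕ} (hX : 0 < X) (hY : 0 < Y) {f : Z2 → ℝ} {C : ℝ} (hC : ∀ z, |f z| ≤ C) :
    |avg X Y (fun z => f (z + (0, 1))) - avg X Y f| ≤ C / Y := by
  have h1 : (0 : ℝ) < X := by exact_mod_cast hX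
  have h2 : (0 : ℝ) < Y := by exact_mod_cast hY
  unfold avg
  rw [← sub_div, ← Finset.sum_sub_distrib]
  simp_rw [← Finset.sum_sub_distrib]
  rw [abs_div, div_le_div_iff₀ (by positivity) h2]
  have e : ∀ i ∈ range (2 * X), ∑ j ∈ range (2 * Y),
      (f (((i : ℤ) - X, (j : ℤ) - Y) + (0, 1)) - f ((i : ℤ) - X, (j : ℤ) - Y))
      = f ((i : ℤ) - X, ((2 * Y : ℕ) : ℤ) - Y) - f ((i : ℤ) - X, ((0 : ℕ) : ℤ) - Y) := by
    intro i _
    rw [← Finset.sum_range_sub (fun j : ℕ => f ((i : ℤ) - X, (j : ℤ) - Y))]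
    refine Finset.sum_congr rfl fun j _ => ?_
    congr 2
    ext
    · simp
    · simp
      ring
  rw [Finset.sum_congr rfl e]
  have h3 : |∑ i ∈ range (2 * X), (f ((i : ℤ) - X, ((2 * Y : ℕ) : ℤ) - Y)
      - f ((i : ℤ) - X, ((0 : ℕ) : ℤ) - Y))| ≤ ∑ j ∈ range (2 * X), (2 * C) := by
    refine (Finset.abs_sum_le_sum_abs _ _).trans (Finset.sum_le_sum fun i _ => ?_)
    have := abs_sub (f ((i : ℤ) - X, ((2 * Y : ℕ) : ℤ) - Y)) (f ((i : ℤ) - X, ((0 : ℕ) : ℤ) - Y))
    linarith [hC ((i : ℤ) - X, ((2 * Y : ℕ) : ℤ) - Y), hC ((i : ℤ) - X, ((0 : ℕ) : ℤ) - Y)]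
  rw [Finset.sum_const, Finset.card_range, nsmul_eq_mul] at h3
  have h5 : ((2 * X : ℕ) : ℝ) * (2 * C) = 4 * X * C := by
    push_cast
    ring
  rw [h5] at h3
  have h4 : |(4 * X * Y : ℝ)| = 4 * X * Y := abs_of_pos (by positivity)
  rw [h4]
  have h6 := mul_le_mul_of_nonneg_right h3 h2.le
  linarith

lemma exists_lim {u : ℕ → ℝ} {C : ℝ} (h : ∀ n, |u n| ≤ C) :
    ∃ L, Tendsto u (hyperfilter ℕ : Filter ℕ) (𝓝 L) := by
  have hc : IsCompact (Set.Icc (-C) C) := isCompact_Icc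
  obtain ⟨x, _, hx⟩ := hc.ultrafilter_le_nhds (Ultrafilter.map u (hyperfilter ℕ)) (by
    rw [le_principal_iff]
    exact Filter.mem_map.2 (Filter.univ_mem' fun n => abs_le.1 (h n)))
  exact ⟨x, hx⟩

variable (X Y : ℕ → ℕ)

/-- the limit of the averages -/
noncomputable def bM (f : Z2 → ℝ) : ℝ :=
  limUnder (hyperfilter ℕ : Filter ℕ) (fun n => avg (X n) (Y n) f)

lemma bM_tendsto {f : Z2 → ℝ} (hf : Bd f) :
    Tendsto (fun n => avg (X n) (Y n) f) (hyperfilter ℕ : Filter ℕ) (𝓝 (bM X Y f)) := by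
  obtain ⟨C, hC⟩ := hf
  exact tendsto_nhds_limUnder (exists_lim (C := C) fun n => avg_abs_le hC)

lemma hyper_le : (hyperfilter ℕ : Filter ℕ) ≤ atTop := by
  rw [← Nat.cofinite_eq_atTop]
  exact hyperfilter_le_cofinite

variable {X Y}

lemma bM_shift1 (hX : Tendsto X atTop atTop) (hY : Tendsto Y atTop atTop) {f : Z2 → ℝ}
    (hf : Bd f) : bM X Y (fun z => f (z + (1, 0))) = bM X Y f := by
  have h1 := bM_tendsto X Y hf
  have h2 := bM_tendsto X Y (hf.comp fun z => z + (1, 0))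
  obtain ⟨C, hC⟩ := hf
  have h3 : Tendsto (fun n => avg (X n) (Y n) (fun z => f (z + (1, 0))) - avg (X n) (Y n) f)
      atTop (𝓝 0) := by
    have h4 : Tendsto (fun n => C / (X n : ℝ)) atTop (𝓝 0) :=
      Tendsto.div_atTop tendsto_const_nhds (tendsto_natCast_atTop_atTop.comp hX)
    refine squeeze_zero_norm' ?_ h4
    filter_upwards [hX.eventually_gt_atTop 0, hY.eventually_gt_atTop 0] with n h5 h6
    rw [Real.norm_eq_abs]
    exact avg_shift1 h5 h6 hC
  have h4 := tendsto_nhds_unique (h2.sub h1) (h3.mono_left hyper_le)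
  linarith

lemma bM_shift2 (hX : Tendsto X atTop atTop) (hY : Tendsto Y atTop atTop) {f : Z2 → ℝ}
    (hf : Bd f) : bM X Y (fun z => f (z + (0, 1))) = bM X Y f := by
  have h1 := bM_tendsto X Y hf
  have h2 := bM_tendsto X Y (hf.comp fun z => z + (0, 1))
  obtain ⟨C, hC⟩ := hf
  have h3 : Tendsto (fun n => avg (X n) (Y n) (fun z => f (z + (0, 1))) - avg (X n) (Y n) f)
      atTop (𝓝 0) := by
    have h4 : Tendsto (fun n => C / (Y n : ℝ)) atTop (𝓝 0) :=
      Tendsto.div_atTop tendsto_const_nhds (tendsto_natCast_atTop_atTop.comp hY)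
    refine squeeze_zero_norm' ?_ h4
    filter_upwards [hX.eventually_gt_atTop 0, hY.eventually_gt_atTop 0] with n h5 h6
    rw [Real.norm_eq_abs]
    exact avg_shift2 h5 h6 hC
  have h4 := tendsto_nhds_unique (h2.sub h1) (h3.mono_left hyper_le)
  linarith

/-- invariance under one vector gives invariance under its multiples -/
lemma shift_of_unit {M : (Z2 → ℝ) → ℝ} {v : Z2}
    (h : ∀ f, Bd f → M (fun z => f (z + v)) = M f) (n : ℤ) (f : Z2 → ℝ) (hf : Bd f) :
    M (fun z => f (z + n • v)) = M f := by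
  have hnat : ∀ (n : ℕ) (f : Z2 → ℝ), Bd f → M (fun z => f (z + (n : ℤ) • v)) = M f := by
    intro n
    induction n with
    | zero =>
      intro f _
      simp
    | succ n ih =>
      intro f hf
      have h1 := h (fun z => f (z + (n : ℤ) • v)) (hf.comp _)
      rw [ih f hf] at h1
      rw [← h1]
      congr 1
      funext z
      congr 1
      push_cast
      rw [add_smul, one_smul]
      abel
  rcases le_or_gt 0 n with hn | hn
  · have := hnat n.toNat f hf
    rwa [Int.toNat_of_nonneg hn] at this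
  · have := hnat (-n).toNat (fun z => f (z + n • v)) (hf.comp _)
    rw [Int.toNat_of_nonneg (by omega)] at this
    rw [← this]
    congr 1
    funext z
    congr 1
    rw [neg_smul]
    abel

/-- the mean of boxes -/
noncomputable def boxMean (hX : Tendsto X atTop atTop) (hY : Tendsto Y atTop atTop) : Mean where
  M := bM X Y
  add f g hf hg := by
    have h1 := bM_tendsto X Y hf
    have h2 := bM_tendsto X Y hg
    have h3 := bM_tendsto X Y (hf.add hg)
    simp_rw [avg_add] at h3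
    exact tendsto_nhds_unique h3 (h1.add h2)
  smul c f hf := by
    have h1 := bM_tendsto X Y hf
    have h3 := bM_tendsto X Y (hf.smul c)
    simp_rw [avg_smul] at h3
    exact tendsto_nhds_unique h3 (h1.const_mul c)
  mono f g hf hg h := by
    have h1 := bM_tendsto X Y hf
    have h2 := bM_tendsto X Y hg
    exact le_of_tendsto_of_tendsto' h1 h2 fun n => avg_mono _ _ h
  shift f hf d := by
    have h1 := shift_of_unit (M := bM X Y) (v := (1, 0)) (fun f hf => bM_shift1 hX hY hf) d.1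
      (fun z => f (z + d.2 • (0, 1))) (hf.comp _)
    have h2 := shift_of_unit (M := bM X Y) (v := (0, 1)) (fun f hf => bM_shift2 hX hY hf) d.2 f hf
    rw [h2] at h1
    rw [← h1]
    congr 1
    funext z
    congr 1
    ext
    · simp
    · simp
  one := by
    have h1 := bM_tendsto X Y (Bd.const 1)
    refine tendsto_nhds_unique h1 (Tendsto.congr' ?_ tendsto_const_nhds)
    filter_upwards [hyper_le (hX.eventually_gt_atTop 0), hyper_le (hY.eventually_gt_atTop 0)]
      with n h5 h6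
    exact (avg_const h5 h6 1).symm

lemma boxMean_tendsto (hX : Tendsto X atTop atTop) (hY : Tendsto Y atTop atTop) {f : Z2 → ℝ}
    (hf : Bd f) :
    Tendsto (fun n => avg (X n) (Y n) f) (hyperfilter ℕ : Filter ℕ) (𝓝 ((boxMean hX hY).M f)) :=
  bM_tendsto X Y hf

end Prc92
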