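import Pool.Agent.Prc92.Core
import Pool.Agent.Prc92.BoxMean

/-!
# The lower bound for the density of a piercing set
-/

namespace Prc92

open Finset Filter Topology Classical

/-- monotonicity of the second condition -/
lemma cond_mono {k ρ ξ η ξ' η' : ℝ} (hk : 0 ≤ k) (hρ : 0 < ρ) (hξ0 : 0 ≤ ξ') (hξ : ξ' ≤ ξ)
    (hξ1 : ξ < 1) (hη0 : 0 ≤ η') (hη : η' ≤ η)
    (c2 : ρ * ((1 - ξ) * ξ * (k + ξ)) ≤ k * (1 - ξ) * (1 - η) - ξ * η) :
    ρ * ((1 - ξ') * ξ' * (k + ξ')) ≤ k * (1 - ξ') * (1 - η') - ξ' * η' := by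
  have hA : 0 < 1 - ξ := by linarith
  have hA' : 0 < 1 - ξ' := by linarith
  have h1 : ρ * (ξ * (k + ξ)) ≤ k * (1 - η) - ξ / (1 - ξ) * η := by
    have e : k * (1 - η) - ξ / (1 - ξ) * η = (k * (1 - ξ) * (1 - η) - ξ * η) / (1 - ξ) := by
      field_simp
    rw [e, le_div_iff₀ hA]
    linarith
  have h2 : ξ' / (1 - ξ') ≤ ξ / (1 - ξ) := by
    rw [div_le_div_iff₀ hA' hA]
    nlinarith
  have h3 : ξ' / (1 - ξ') * η' ≤ ξ / (1 - ξ) * η :=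
    mul_le_mul h2 hη hη0 (div_nonneg (hξ0.trans hξ) hA.le)
  have h4 : ξ' * (k + ξ') ≤ ξ * (k + ξ) :=
    mul_le_mul hξ (by linarith) (by linarith) (hξ0.trans hξ)
  have h5 : ρ * (ξ' * (k + ξ')) ≤ ρ * (ξ * (k + ξ)) := mul_le_mul_of_nonneg_left h4 hρ.le
  have h6 : k * (1 - η) ≤ k * (1 - η') := mul_le_mul_of_nonneg_left (by linarith) hk
  have h7 : ρ * (ξ' * (k + ξ')) ≤ k * (1 - η') - ξ' / (1 - ξ') * η' := by linarith
  have h8 := mul_le_mul_of_nonneg_left h7 hA'.le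
  have e2 : (1 - ξ') * (k * (1 - η') - ξ' / (1 - ξ') * η')
      = k * (1 - ξ') * (1 - η') - ξ' * η' := by
    field_simp
  rw [e2] at h8
  linarith

/-- discretisation of a set of points -/
def PK (sx sy : ℝ) (Q : Set (ℝ × ℝ)) : Set Z2 := {z | ∃ q ∈ Q, ⌊q.1 / sx⌋ = z.1 ∧ ⌊q.2 / sy⌋ = z.2}

lemma sw_PK (sx sy : ℝ) (Q : Set (ℝ × ℝ)) : sw (PK sx sy Q) = PK sy sx (Prod.swap '' Q) := by
  ext z
  constructor
  · rintro ⟨q, hq, h1, h2⟩
    exact ⟨q.swap, ⟨q, hq, rfl⟩, h2, h1⟩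
  · rintro ⟨_, ⟨q, hq, rfl⟩, h1, h2⟩
    exact ⟨q, hq, h2, h1⟩

lemma bnd_PK {sx sy W H ξ : ℝ} {K k : ℕ} {Q : Set (ℝ × ℝ)} (hx : 0 < sx) (hy : 0 < sy)
    (hξ : 0 ≤ ξ) (hW : W = K * (k + 1 + ξ) * sx) (hH : H = K * sy)
    (hQ : ∀ a b : ℝ, ∃ q ∈ Q, a ≤ q.1 ∧ q.1 ≤ a + W ∧ b ≤ q.2 ∧ q.2 ≤ b + H) :
    Bnd (PK sx sy Q) (K + 1) (k * (K + 1) + (⌊(K : ℝ) * ξ⌋₊ - k)) := by
  intro z
  obtain ⟨q, hq, h1, h2, h3, h4⟩ := hQ (z.1 * sx) (z.2 * sy)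
  set p : Z2 := (⌊q.1 / sx⌋, ⌊q.2 / sy⌋) with hp
  have hpP : p ∈ PK sx sy Q := ⟨q, hq, rfl, rfl⟩
  have g1 : z.1 ≤ p.1 := by
    rw [hp]
    simp only
    rw [Int.le_floor, le_div_iff₀ hx]
    exact h1
  have g3 : z.2 ≤ p.2 := by
    rw [hp]
    simp only
    rw [Int.le_floor, le_div_iff₀ hy]
    exact h3
  have g2 : p.1 ≤ z.1 + K * (k + 1) + ⌊(K : ℝ) * ξ⌋₊ := by
    have h5 : (p.1 : ℝ) ≤ q.1 / sx := Int.floor_le _
    have h6 : q.1 / sx ≤ z.1 + K * (k + 1 + ξ) := by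
      rw [div_le_iff₀ hx]
      rw [hW] at h2
      linarith
    have h7 : ((p.1 - z.1 - K * (k + 1) : ℤ) : ℝ) ≤ (K : ℝ) * ξ := by
      push_cast
      linarith
    have h8 : p.1 - z.1 - K * (k + 1) ≤ ⌊(K : ℝ) * ξ⌋ := Int.le_floor.2 h7
    have h9 : ((⌊(K : ℝ) * ξ⌋₊ : ℕ) : ℤ) = ⌊(K : ℝ) * ξ⌋ := by
      rw [Int.natCast_floor_eq_floor (by positivity)]
    rw [h9]
    linarith
  have g4 : p.2 ≤ z.2 + K := by
    have h5 : (p.2 : ℝ) ≤ q.2 / sy := Int.floor_le _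
    have h6 : q.2 / sy ≤ z.2 + K := by
      rw [div_le_iff₀ hy]
      rw [hH] at h4
      linarith
    have h7 : (p.2 : ℝ) ≤ ((z.2 + K : ℤ) : ℝ) := by
      push_cast
      linarith
    exact_mod_cast h7
  refine ⟨(p.1 - z.1 - K).toNat, ?_, ?_⟩
  · have e1 : (K : ℤ) * (k + 1) = k * (K + 1) - k + K := by ring
    rw [e1] at g2
    have e2 : ((k * (K + 1) : ℕ) : ℤ) = (k : ℤ) * (K + 1) := by push_cast; ring
    omega
  · intro hf
    refine hf p hpP ⟨?_, ?_, ?_, ?_⟩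
    · simp only
      omega
    · simp only
      omega
    · exact g3
    · simp only
      omega

/-- the box of half side `r` -/
def bx (r : ℝ) : Set (ℝ × ℝ) := Set.Icc (-r) r ×ˢ Set.Icc (-r) r

lemma count_le {sx sy : ℝ} (hx : 0 < sx) (hy : 0 < sy) (Q : Set (ℝ × ℝ)) {X Y : ℕ} {r : ℝ}
    (hX : X * sx ≤ r) (hY : Y * sy ≤ r) (hfin : (Q ∩ bx r).Finite) :
    (∑ i ∈ range (2 * X), ∑ j ∈ range (2 * Y),
      if (((i : ℤ) - X, (j : ℤ) - Y) : Z2) ∈ PK sx sy Q then (1 : ℝ) else 0)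
      ≤ ((Q ∩ bx r).ncard : ℝ) := by
  set T := (range (2 * X) ×ˢ range (2 * Y)).filter
    (fun x => (((x.1 : ℤ) - X, (x.2 : ℤ) - Y) : Z2) ∈ PK sx sy Q) with hT
  have e : (∑ i ∈ range (2 * X), ∑ j ∈ range (2 * Y),
      if (((i : ℤ) - X, (j : ℤ) - Y) : Z2) ∈ PK sx sy Q then (1 : ℝ) else 0) = (T.card : ℝ) := by
    rw [hT, Finset.card_filter]
    push_cast
    rw [Finset.sum_product]
  rw [e]
  have hch : ∀ x ∈ T, ∃ q ∈ Q, ⌊q.1 / sx⌋ = (x.1 : ℤ) - X ∧ ⌊q.2 / sy⌋ = (x.2 : ℤ) - Y := by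
    intro x hx
    rw [hT, Finset.mem_filter] at hx
    exact hx.2
  choose! F hF using hch
  have hcard : T.card ≤ hfin.toFinset.card := by
    refine Finset.card_le_card_of_injOn F ?_ ?_
    · intro x hxT
      have hxT' := hxT
      rw [Finset.mem_coe, hT, Finset.mem_filter, Finset.mem_product, Finset.mem_range,
        Finset.mem_range] at hxT'
      obtain ⟨h1, h2, h3⟩ := hF x hxT
      rw [Finset.mem_coe, Set.Finite.mem_toFinset]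
      refine ⟨h1, ?_⟩
      have key : ∀ (s u : ℝ) (n Z : ℕ), 0 < s → Z * s ≤ r → n < 2 * Z →
          ⌊u / s⌋ = (n : ℤ) - Z → -r ≤ u ∧ u ≤ r := by
        intro s u n Z hs hZ hn hfl
        rw [Int.floor_eq_iff] at hfl
        obtain ⟨f1, f2⟩ := hfl
        push_cast at f1 f2
        rw [le_div_iff₀ hs] at f1
        rw [div_lt_iff₀ hs] at f2
        have hn' : (n : ℝ) + 1 ≤ 2 * Z := by exact_mod_cast hn
        have hn0 : (0 : ℝ) ≤ n := Nat.cast_nonneg _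
        constructor
        · nlinarith
        · nlinarith
      rw [bx, Set.mem_prod, Set.mem_Icc, Set.mem_Icc]
      exact ⟨key sx _ _ X hx hX hxT'.1.1 h2, key sy _ _ Y hy hY hxT'.1.2 h3⟩
    · intro x hxT y hyT hxy
      obtain ⟨_, h2, h3⟩ := hF x hxT
      obtain ⟨_, h2', h3'⟩ := hF y hyT
      rw [hxy] at h2 h3
      ext
      · omega
      · omega
  rw [Set.ncard_eq_toFinset_card _ hfin]
  exact_mod_cast hcard

/-- if the upper density is less than `c` then the discretised set has mean density at most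
`c sx sy` -/
lemma mean_le {sx sy c : ℝ} (hx : 0 < sx) (hy : 0 < sy) {Q : Set (ℝ × ℝ)}
    (hQ : ∀ᶠ r : ℝ in atTop, (Q ∩ bx r).Finite ∧ ((Q ∩ bx r).ncard : ℝ) ≤ c * (4 * r ^ 2)) :
    ∃ m : Mean, dn m (PK sx sy Q) ≤ c * (sx * sy) := by
  set X : ℕ → ℕ := fun n => ⌊sx⁻¹ * (n : ℝ)⌋₊ with hXdef
  set Y : ℕ → ℕ := fun n => ⌊sy⁻¹ * (n : ℝ)⌋₊ with hYdef
  have hX : Tendsto X atTop atTop :=
    tendsto_nat_floor_atTop.comp
      (Tendsto.const_mul_atTop (inv_pos.2 hx) tendsto_natCast_atTop_atTop)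
  have hY : Tendsto Y atTop atTop :=
    tendsto_nat_floor_atTop.comp
      (Tendsto.const_mul_atTop (inv_pos.2 hy) tendsto_natCast_atTop_atTop)
  refine ⟨boxMean hX hY, ?_⟩
  have hb : Bd (fun p : Z2 => if p ∈ PK sx sy Q then (1 : ℝ) else 0) := bd_ite (Bd.const 1)
  have h1 := boxMean_tendsto hX hY hb
  have hXl : Tendsto (fun n : ℕ => (X n : ℝ) / n) atTop (𝓝 sx⁻¹) :=
    (tendsto_nat_floor_mul_div_atTop (inv_pos.2 hx).le).comp tendsto_natCast_atTop_atTop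
  have hYl : Tendsto (fun n : ℕ => (Y n : ℝ) / n) atTop (𝓝 sy⁻¹) :=
    (tendsto_nat_floor_mul_div_atTop (inv_pos.2 hy).le).comp tendsto_natCast_atTop_atTop
  have h2 : Tendsto (fun n : ℕ => c * (((X n : ℝ) / n)⁻¹ * ((Y n : ℝ) / n)⁻¹)) atTop
      (𝓝 (c * (sx * sy))) := by
    have h3 := ((hXl.inv₀ (inv_ne_zero hx.ne')).mul (hYl.inv₀ (inv_ne_zero hy.ne'))).const_mul c
    rwa [inv_inv, inv_inv] at h3
  refine le_of_tendsto_of_tendsto h1 (h2.mono_left hyper_le) ?_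
  have h4 : ∀ᶠ n : ℕ in atTop, avg (X n) (Y n)
      (fun p : Z2 => if p ∈ PK sx sy Q then (1 : ℝ) else 0)
      ≤ c * (((X n : ℝ) / n)⁻¹ * ((Y n : ℝ) / n)⁻¹) := by
    filter_upwards [tendsto_natCast_atTop_atTop.eventually hQ, hX.eventually_gt_atTop 0,
      hY.eventually_gt_atTop 0, eventually_gt_atTop 0] with n hn hXn hYn hn0
    obtain ⟨hfin, hle⟩ := hn
    have hn0' : (0 : ℝ) < n := by exact_mod_cast hn0
    have hXn' : (0 : ℝ) < X n := by exact_mod_cast hXn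
    have hYn' : (0 : ℝ) < Y n := by exact_mod_cast hYn
    have hXr : (X n : ℝ) * sx ≤ n := by
      have : (X n : ℝ) ≤ sx⁻¹ * n := Nat.floor_le (by positivity)
      calc (X n : ℝ) * sx ≤ sx⁻¹ * n * sx := mul_le_mul_of_nonneg_right this hx.le
        _ = n := by field_simp
    have hYr : (Y n : ℝ) * sy ≤ n := by
      have : (Y n : ℝ) ≤ sy⁻¹ * n := Nat.floor_le (by positivity)
      calc (Y n : ℝ) * sy ≤ sy⁻¹ * n * sy := mul_le_mul_of_nonneg_right this hy.le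
        _ = n := by field_simp
    have hcnt := count_le hx hy Q hXr hYr hfin
    unfold avg
    rw [div_le_iff₀ (by positivity)]
    refine (hcnt.trans hle).trans (le_of_eq ?_)
    field_simp
  exact hyper_le h4

/-- the lower bound -/
theorem dens_lower {w1 h1 w2 h2 ξ η ρ : ℝ} {k : ℕ} (hk : 1 ≤ k) (hw2 : 0 < w2) (hh1 : 0 < h1)
    (hξ0 : 0 ≤ ξ) (hξ1 : ξ < 1) (hη0 : 0 ≤ η) (hη1 : η < 1)
    (hw : w1 = (k + 1 + ξ) * w2) (hh : h2 = (k + 1 + η) * h1) (hρ : 0 < ρ)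
    (c1 : ρ * (ξ * (1 + ξ)) ≤ 1 - η)
    (c2 : ρ * ((1 - ξ) * ξ * (k + ξ)) ≤ k * (1 - ξ) * (1 - η) - ξ * η)
    (c3 : η * (1 + η) ≤ ρ * (1 - ξ))
    (c4 : (1 - η) * η * (k + η) ≤ ρ * (k * (1 - ξ) * (1 - η) - ξ * η))
    {Q : Set (ℝ × ℝ)}
    (hQ1 : ∀ a b : ℝ, ∃ q ∈ Q, a ≤ q.1 ∧ q.1 ≤ a + w1 ∧ b ≤ q.2 ∧ q.2 ≤ b + h1)
    (hQ2 : ∀ a b : ℝ, ∃ q ∈ Q, a ≤ q.1 ∧ q.1 ≤ a + w2 ∧ b ≤ q.2 ∧ q.2 ≤ b + h2) :
    ENNReal.ofReal (1 / ((k + 1) * w2 * h1))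
      ≤ limsup (fun r : ℝ => ((Q ∩ bx r).encard : ENNReal) / ENNReal.ofReal (4 * r ^ 2)) atTop := by
  by_contra hcon
  push Not at hcon
  obtain ⟨c, hc1, hc2⟩ := exists_between hcon
  have hctop : c ≠ ⊤ := (hc2.trans ENNReal.ofReal_lt_top).ne
  set c' := c.toReal with hc'
  have hc'0 : 0 ≤ c' := ENNReal.toReal_nonneg
  have hcc : c = ENNReal.ofReal c' := (ENNReal.ofReal_toReal hctop).symm
  have hL0 : (0 : ℝ) < (k + 1) * w2 * h1 := by positivity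
  have hc'L : c' < 1 / ((k + 1) * w2 * h1) := by
    rw [hcc, ENNReal.ofReal_lt_ofReal_iff (by positivity)] at hc2
    exact hc2
  have hev : ∀ᶠ r : ℝ in atTop, (Q ∩ bx r).Finite ∧ ((Q ∩ bx r).ncard : ℝ) ≤ c' * (4 * r ^ 2) := by
    filter_upwards [eventually_lt_of_limsup_lt hc1, eventually_gt_atTop 0] with r hr hr0
    have h4 : (0 : ℝ) < 4 * r ^ 2 := by positivity
    have h5 : ((Q ∩ bx r).encard : ENNReal) ≤ c * ENNReal.ofReal (4 * r ^ 2) := by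
      have := (ENNReal.div_le_iff_le_mul (Or.inl (by rw [Ne, ENNReal.ofReal_eq_zero]; linarith))
        (Or.inl ENNReal.ofReal_ne_top)).1 hr.le
      exact this
    rw [hcc, ← ENNReal.ofReal_mul hc'0] at h5
    have h6 : (Q ∩ bx r).Finite := by
      rw [← Set.encard_ne_top_iff]
      intro h7
      rw [h7] at h5
      simp at h5
    refine ⟨h6, ?_⟩
    have h7 : (Q ∩ bx r).encard = ((Q ∩ bx r).ncard : ℕ∞) := h6.cast_ncard_eq.symm
    rw [h7] at h5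
    have h8 : (((Q ∩ bx r).ncard : ℕ) : ENNReal) ≤ ENNReal.ofReal (c' * (4 * r ^ 2)) := by
      simpa using h5
    rw [← ENNReal.ofReal_natCast, ENNReal.ofReal_le_ofReal_iff (by positivity)] at h8
    exact h8
  -- the bound for every mesh
  have hK : ∀ K : ℕ, 1 ≤ K → (K : ℝ) ^ 2 ≤ ((k + 1) * w2 * h1 * c') * ((K : ℝ) + 1) ^ 2 := by
    intro K hK1
    have hK0 : (0 : ℝ) < K := by exact_mod_cast hK1
    have hsx : 0 < w2 / K := by positivity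
    have hsy : 0 < h1 / K := by positivity
    obtain ⟨m, hm⟩ := mean_le hsx hsy hev
    have hB := bnd_PK (K := K) (k := k) (Q := Q) (W := w1) (H := h1) hsx hsy hξ0
      (by rw [hw]; field_simp) (by field_simp) hQ1
    have hB' : Bnd (sw (PK (w2 / K) (h1 / K) Q)) (K + 1)
        (k * (K + 1) + (⌊(K : ℝ) * η⌋₊ - k)) := by
      rw [sw_PK]
      refine bnd_PK (K := K) (k := k) (W := h2) (H := w2) hsy hsx hη0
        (by rw [hh]; field_simp) (by field_simp) ?_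
      intro a b
      obtain ⟨q, hq, e1, e2, e3, e4⟩ := hQ2 b a
      exact ⟨q.swap, ⟨q, hq, rfl⟩, e3, e4, e1, e2⟩
    have hfr : ∀ θ : ℝ, 0 ≤ θ → θ < 1 → (((⌊(K : ℝ) * θ⌋₊ - k : ℕ) : ℝ)) / ((K + 1 : ℕ) : ℝ) ≤ θ ∧
        ⌊(K : ℝ) * θ⌋₊ - k < K + 1 := by
      intro θ h0 h1
      have h3 : ((⌊(K : ℝ) * θ⌋₊ : ℕ) : ℝ) ≤ (K : ℝ) * θ := Nat.floor_le (by positivity)
      have h4 : (((⌊(K : ℝ) * θ⌋₊ - k : ℕ) : ℝ)) ≤ ((⌊(K : ℝ) * θ⌋₊ : ℕ) : ℝ) := by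
        exact_mod_cast Nat.sub_le _ _
      constructor
      · rw [div_le_iff₀ (by positivity)]
        push_cast
        nlinarith
      · have h5 : ((⌊(K : ℝ) * θ⌋₊ : ℕ) : ℝ) < (K : ℝ) + 1 := by nlinarith
        have h6 : ⌊(K : ℝ) * θ⌋₊ < K + 1 := by exact_mod_cast h5
        omega
    obtain ⟨x1, x2⟩ := hfr ξ hξ0 hξ1
    obtain ⟨y1, y2⟩ := hfr η hη0 hη1
    have hkr : (0 : ℝ) ≤ k := Nat.cast_nonneg _
    have hU0 : (0 : ℝ) < ((K + 1 : ℕ) : ℝ) := by positivity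
    set ξ' := (((⌊(K : ℝ) * ξ⌋₊ - k : ℕ) : ℝ)) / ((K + 1 : ℕ) : ℝ) with hξ'
    set η' := (((⌊(K : ℝ) * η⌋₊ - k : ℕ) : ℝ)) / ((K + 1 : ℕ) : ℝ) with hη'
    have x0 : 0 ≤ ξ' := by rw [hξ']; positivity
    have y0 : 0 ≤ η' := by rw [hη']; positivity
    have d2 := cond_mono (k := (k : ℝ)) hkr hρ x0 x1 hξ1 y0 y1 c2
    have d4 : (1 - η') * η' * (k + η') ≤ ρ * (k * (1 - ξ') * (1 - η') - ξ' * η') := by
      have c4' : ρ⁻¹ * ((1 - η) * η * (k + η)) ≤ k * (1 - η) * (1 - ξ) - η * ξ := by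
        rw [inv_mul_le_iff₀ hρ]
        linarith
      have := cond_mono (k := (k : ℝ)) hkr (inv_pos.2 hρ) y0 y1 hη1 x0 x1 c4'
      rw [inv_mul_le_iff₀ hρ] at this
      linarith
    have hc := core (k := k) m (Nat.succ_pos K) hk x2 y2 hB hB' (ξ := ξ') (η := η') (ρ := ρ)
      (by rw [hξ']; field_simp) (by rw [hη']; field_simp) hρ
      (by
        have h3 : ξ' * (1 + ξ') ≤ ξ * (1 + ξ) := mul_le_mul x1 (by linarith) (by linarith) hξ0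
        have := mul_le_mul_of_nonneg_left h3 hρ.le
        linarith)
      d2
      (by
        have h3 : η' * (1 + η') ≤ η * (1 + η) := mul_le_mul y1 (by linarith) (by linarith) hη0
        have h4 : ρ * (1 - ξ) ≤ ρ * (1 - ξ') := mul_le_mul_of_nonneg_left (by linarith) hρ.le
        linarith)
      d4
    have h5 : ((k : ℝ) + 1) * ((K + 1 : ℕ) : ℝ) ^ 2 * dn m (PK (w2 / K) (h1 / K) Q)
        ≤ ((k : ℝ) + 1) * ((K + 1 : ℕ) : ℝ) ^ 2 * (c' * (w2 / K * (h1 / K))) :=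
      mul_le_mul_of_nonneg_left hm (by positivity)
    have h6 := hc.trans h5
    have e : ((k : ℝ) + 1) * ((K + 1 : ℕ) : ℝ) ^ 2 * (c' * (w2 / K * (h1 / K)))
        = ((k + 1) * w2 * h1 * c') * ((K : ℝ) + 1) ^ 2 / (K : ℝ) ^ 2 := by
      push_cast
      field_simp
    rw [e, le_div_iff₀ (by positivity)] at h6
    linarith
  set θ := (k + 1) * w2 * h1 * c' with hθ
  have hθ1 : θ < 1 := by
    rw [lt_div_iff₀ hL0] at hc'L
    rw [hθ]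
    linarith
  have hθ0 : 0 ≤ θ := by
    rw [hθ]
    positivity
  obtain ⟨K, hKl⟩ := exists_nat_gt (3 / (1 - θ))
  have h1θ : 0 < 1 - θ := by linarith
  rw [div_lt_iff₀ h1θ] at hKl
  have hK1 : 1 ≤ K := by
    by_contra h
    have : K = 0 := by omega
    rw [this] at hKl
    simp at hKl
    linarith
  have hK1' : (1 : ℝ) ≤ K := by exact_mod_cast hK1
  have := hK K hK1
  nlinarith

end Prc92
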