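import Pool.Agent.Prc92.Rel1

/-!
# The contact relation
-/

namespace Prc92

open Finset Classical

variable (P : Set Z2) (U k : ℕ)

/-- contact below the plateau of the longest runs of `p` -/
noncomputable def cl (p : Z2) : ℕ :=
  if t1 P U p + 1 < U ∧ k * U < G P U p then U + g P U p (t1 P U p + 1) - G P U p else 0

/-- contact above the plateau of the longest runs of `p` -/
noncomputable def cu (p : Z2) : ℕ :=
  if 0 < t0 P U p ∧ k * U < G P U p then U + g P U p (t0 P U p - 1) - G P U p else 0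

/-- covered columns above `q` with a free column to the left -/
noncomputable def Low (q : Z2) : Finset ℕ := (range U).filter
  (fun s => ¬ Fr P U (q.1 - s, q.2 + 1) ∧ ∃ s' : ℕ, s' < U ∧ s < s' ∧ Fr P U (q.1 - s', q.2 + 1))

/-- covered columns above `q` with no free column to the left -/
noncomputable def Upp (q : Z2) : Finset ℕ := (range U).filter
  (fun s => ∀ s' : ℕ, s' < U → s ≤ s' → ¬ Fr P U (q.1 - s', q.2 + 1))

variable {P U k} {N a : ℕ}

lemma covered_run {q : Z2} {s : ℕ} (hq : q ∈ P) (hs : s < U)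
    (h : ¬ Fr P U (q.1 - s, q.2 + 1)) : g (sw P) U q.swap s = 0 := by
  by_contra hne
  have := (show R (sw P) U q.swap s 1 from ⟨by simpa [mem_sw] using hq, hs, le_rfl, by omega⟩).free
  rw [Fr_sw] at this
  apply h
  simpa using this

lemma low_upp_card {q : Z2} (hq : q ∈ P) :
    (Low P U q).card + (Upp P U q).card
      ≤ ((range U).filter (fun s => g (sw P) U q.swap s = 0)).card := by
  have hdisj : Disjoint (Low P U q) (Upp P U q) := by
    rw [Finset.disjoint_left]
    intro s h1 h2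
    simp only [Low, Upp, mem_filter] at h1 h2
    obtain ⟨_, _, s', h3, h4, h5⟩ := h1
    exact h2.2 s' h3 h4.le h5
  rw [← Finset.card_union_of_disjoint hdisj]
  apply Finset.card_le_card
  intro s hs
  rw [Finset.mem_union] at hs
  simp only [Low, Upp, mem_filter] at hs
  rw [Finset.mem_filter]
  rcases hs with ⟨h1, h2, _⟩ | ⟨h1, h2⟩
  · exact ⟨h1, covered_run hq (Finset.mem_range.1 h1) h2⟩
  · exact ⟨h1, covered_run hq (Finset.mem_range.1 h1) (h2 s (Finset.mem_range.1 h1) le_rfl)⟩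

/-- unimodality of the rows of `p` -/
lemma unimodal (hB : Bnd P U N) {p : Z2} (hp : p ∈ P) {t₁ t₂ t₃ : ℕ} (h12 : t₁ ≤ t₂) (h23 : t₂ ≤ t₃)
    (h3 : t₃ < U) : min (g P U p t₁) (g P U p t₃) ≤ g P U p t₂ := by
  rcases Nat.eq_zero_or_pos (min (g P U p t₁) (g P U p t₃)) with h | h
  · rw [h]
    exact Nat.zero_le _
  · exact (contig hB (i := min (g P U p t₁) (g P U p t₃)) ⟨hp, by omega, h, min_le_left _ _⟩
      ⟨hp, h3, h, min_le_right _ _⟩ h12 h23).2.2.2

/-- the square at the right end of a run -/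
lemma right_end (hB : Bnd P U N) {p : Z2} {t i : ℕ} (h : R P U p t i) (hi : g P U p t = i) :
    ∃ q ∈ P, q.1 = p.1 + i + U ∧ p.2 - t ≤ q.2 ∧ q.2 < p.2 - t + U := by
  have hcan := h.can
  have hend : ¬ Fr P U (p.1 + i + 1, p.2 - t) := by
    have := rl_end hB (p.1 + 1, p.2 - t)
    have e : g P U p t = rl P U (p.1 + 1, p.2 - t) := by
      unfold g
      rw [if_pos hcan]
    rw [← e, hi] at this
    have e2 : (p.1 + 1 + (i : ℤ)) = p.1 + i + 1 := by ring
    simp only at this
    rw [e2] at this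
    exact this
  obtain ⟨q, hq, h1, h2, h3, h4⟩ := exists_cover hend
  simp only at h1 h2 h3 h4
  refine ⟨q, hq, ?_, h3, h4⟩
  by_contra hne
  exact h.free q hq ⟨by simp only; omega, by simp only; omega, h3, h4⟩

/-- data of a contact below the plateau -/
lemma low_data (hU : 0 < U) (hk : 1 ≤ k) (hB : Bnd P U N) {p : Z2} (hp : p ∈ P)
    (hc : cl P U k p ≠ 0) :
    t1 P U p + 1 < U ∧ k * U < G P U p ∧ G P U p < U + g P U p (t1 P U p + 1) ∧
      g P U p (t1 P U p + 1) < G P U p ∧ 1 ≤ g P U p (t1 P U p + 1) ∧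
      cl P U k p = U + g P U p (t1 P U p + 1) - G P U p ∧
      ((p.1 + g P U p (t1 P U p + 1) + U, p.2 - (t1 P U p + 1)) : Z2) ∈ P := by
  have hc1 : t1 P U p + 1 < U ∧ k * U < G P U p := by
    by_contra h
    apply hc
    unfold cl
    rw [if_neg h]
  have hc2 : cl P U k p = U + g P U p (t1 P U p + 1) - G P U p := by
    unfold cl
    rw [if_pos hc1]
  obtain ⟨h1, h2⟩ := hc1
  have hlt : g P U p (t1 P U p + 1) < G P U p := by
    refine lt_of_le_of_ne (g_le_G p h1) fun h => ?_
    have := le_t1 p h1 h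
    omega
  have hkU : U ≤ k * U := Nat.le_mul_of_pos_left _ hk
  have he : 1 ≤ g P U p (t1 P U p + 1) := by omega
  refine ⟨h1, h2, by omega, hlt, he, hc2, ?_⟩
  have hR : R P U p (t1 P U p + 1) (g P U p (t1 P U p + 1)) := ⟨hp, h1, he, le_rfl⟩
  obtain ⟨q, hq, q1, q2, q3⟩ := right_end hB hR rfl
  have hR2 : R P U p (t1 P U p) (g P U p (t1 P U p + 1) + 1) := by
    refine ⟨hp, by omega, by omega, ?_⟩
    rw [(t1_mem hU p).2]
    omega
  have hf := hR2.free q hq
  push_cast at hf q2 q3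
  have e : q = (p.1 + g P U p (t1 P U p + 1) + U, p.2 - (t1 P U p + 1)) := by
    ext
    · exact q1
    · simp only at hf ⊢
      by_contra hne
      exact hf ⟨by omega, by omega, by omega, by omega⟩
  rw [← e]
  exact hq

/-- data of a contact above the plateau -/
lemma upp_data (hU : 0 < U) (hk : 1 ≤ k) (hB : Bnd P U N) {p : Z2} (hp : p ∈ P)
    (hc : cu P U k p ≠ 0) :
    0 < t0 P U p ∧ k * U < G P U p ∧ G P U p < U + g P U p (t0 P U p - 1) ∧
      g P U p (t0 P U p - 1) < G P U p ∧ 1 ≤ g P U p (t0 P U p - 1) ∧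
      cu P U k p = U + g P U p (t0 P U p - 1) - G P U p ∧
      ((p.1 + g P U p (t0 P U p - 1) + U, p.2 - t0 P U p + U) : Z2) ∈ P := by
  have hc1 : 0 < t0 P U p ∧ k * U < G P U p := by
    by_contra h
    apply hc
    unfold cu
    rw [if_neg h]
  have hc2 : cu P U k p = U + g P U p (t0 P U p - 1) - G P U p := by
    unfold cu
    rw [if_pos hc1]
  obtain ⟨h1, h2⟩ := hc1
  have ht0 := t0_mem (P := P) hU p
  have hlt : g P U p (t0 P U p - 1) < G P U p := by
    refine lt_of_le_of_ne (g_le_G p (by omega)) fun h => ?_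
    have := t0_le p (by omega) h
    omega
  have hkU : U ≤ k * U := Nat.le_mul_of_pos_left _ hk
  have he : 1 ≤ g P U p (t0 P U p - 1) := by omega
  refine ⟨h1, h2, by omega, hlt, he, hc2, ?_⟩
  have hR : R P U p (t0 P U p - 1) (g P U p (t0 P U p - 1)) := ⟨hp, by omega, he, le_rfl⟩
  obtain ⟨q, hq, q1, q2, q3⟩ := right_end hB hR rfl
  have hR2 : R P U p (t0 P U p) (g P U p (t0 P U p - 1) + 1) := by
    refine ⟨hp, by omega, by omega, ?_⟩
    rw [ht0.2]
    omega
  have hf := hR2.free q hq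
  have et : ((t0 P U p - 1 : ℕ) : ℤ) = (t0 P U p : ℤ) - 1 := by omega
  rw [et] at q2 q3
  push_cast at hf
  have e : q = (p.1 + g P U p (t0 P U p - 1) + U, p.2 - t0 P U p + U) := by
    ext
    · exact q1
    · simp only at hf ⊢
      by_contra hne
      exact hf ⟨by omega, by omega, by omega, by omega⟩
  rw [← e]
  exact hq

/-- the plateau runs -/
lemma plateau (hU : 0 < U) {p : Z2} (hp : p ∈ P) (hG : k * U < G P U p) :
    R P U p (t1 P U p) (G P U p) ∧ R P U p (t0 P U p) (G P U p) :=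
  ⟨⟨hp, (t1_mem hU p).1, by omega, (t1_mem hU p).2.ge⟩,
    ⟨hp, (t0_mem hU p).1, by omega, (t0_mem hU p).2.ge⟩⟩

/-- cells to the right of the plateau, in the row `t1`, up to column `p.1 + G + U`, are covered -/
lemma after_plateau (hB : Bnd P U N) {p : Z2} {t : ℕ} (hR : R P U p t (G P U p))
    (ht : g P U p t = G P U p) {x : ℤ} (h1 : p.1 + G P U p < x) (h2 : x ≤ p.1 + G P U p + U) :
    ¬ Fr P U (x, p.2 - t) := by
  obtain ⟨q, hq, q1, q2, q3⟩ := right_end hB hR ht
  intro hf
  exact hf q hq ⟨by simp only; omega, by simp only; omega, by simp only; omega, by simp only; omega⟩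

/-- the square below the plateau -/
noncomputable def Φl (P : Set Z2) (U : ℕ) (p : Z2) : Z2 :=
  (p.1 + g P U p (t1 P U p + 1) + U, p.2 - (t1 P U p + 1))

lemma low_card (hU : 0 < U) (hk : 1 ≤ k) (hB : Bnd P U N) {p : Z2} (hp : p ∈ P)
    (hc : cl P U k p ≠ 0) : cl P U k p ≤ (Low P U (Φl P U p)).card := by
  obtain ⟨h1, h2, h3, h4, h5, h6, h7⟩ := low_data hU hk hB hp hc
  have hpl := (plateau hU hp h2).1
  have hsub : range (cl P U k p) ⊆ Low P U (Φl P U p) := by
    intro s hs
    rw [Finset.mem_range] at hs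
    rw [Low, Finset.mem_filter, Finset.mem_range]
    have er : (Φl P U p).2 + 1 = p.2 - t1 P U p := by
      simp only [Φl]
      ring
    refine ⟨by omega, ?_, U + g P U p (t1 P U p + 1) - G P U p, by omega, by omega, ?_⟩
    · rw [er]
      apply after_plateau hB hpl (t1_mem hU p).2
      · simp only [Φl]
        omega
      · simp only [Φl]
        omega
    · rw [er]
      have := hpl.free
      have e : (Φl P U p).1 - ((U + g P U p (t1 P U p + 1) - G P U p : ℕ) : ℤ)
          = p.1 + G P U p := by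
        simp only [Φl]
        omega
      rw [e]
      exact this
  have := Finset.card_le_card hsub
  simpa using this

lemma low_inj (hU : 0 < U) (hk : 1 ≤ k) (hB : Bnd P U N) :
    Set.InjOn (Φl P U) {p | p ∈ P ∧ cl P U k p ≠ 0} := by
  have key : ∀ p p' : Z2, p ∈ P → cl P U k p ≠ 0 → p' ∈ P → cl P U k p' ≠ 0 →
      Φl P U p = Φl P U p' → ¬ p.1 + G P U p < p'.1 + G P U p' := by
    intro p p' hp hc hp' hc' he hlt
    obtain ⟨h1, h2, h3, h4, h5, h6, h7⟩ := low_data hU hk hB hp hc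
    obtain ⟨h1', h2', h3', h4', h5', h6', h7'⟩ := low_data hU hk hB hp' hc'
    have e1 := congrArg Prod.fst he
    have e2 := congrArg Prod.snd he
    simp only [Φl] at e1 e2
    have hpl := (plateau hU hp h2).1
    have hpl' := (plateau hU hp' h2').1
    have hf := hpl'.free
    have e3 : p'.2 - (t1 P U p' : ℤ) = p.2 - t1 P U p := by omega
    rw [e3] at hf
    exact after_plateau hB hpl (t1_mem hU p).2 (by omega) (by omega) hf
  rintro p ⟨hp, hc⟩ p' ⟨hp', hc'⟩ he
  have k1 := key p p' hp hc hp' hc' he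
  have k2 := key p' p hp' hc' hp hc he.symm
  obtain ⟨h1, h2, _⟩ := low_data hU hk hB hp hc
  obtain ⟨h1', h2', _⟩ := low_data hU hk hB hp' hc'
  have e2 := congrArg Prod.snd he
  simp only [Φl] at e2
  exact (unique_R hU (plateau hU hp h2).1 (plateau hU hp' h2').1 (by omega) (by omega)).1

/-- the square at the right end of the first plateau run -/
noncomputable def Φu (P : Set Z2) (U : ℕ) (p : Z2) : Z2 :=
  if h : ∃ q ∈ P, q.1 = p.1 + G P U p + U ∧ p.2 - t0 P U p ≤ q.2 ∧ q.2 < p.2 - t0 P U p + U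
    then h.choose else p

lemma Φu_spec (hU : 0 < U) (hB : Bnd P U N) {p : Z2} (hp : p ∈ P) (hG : k * U < G P U p) :
    Φu P U p ∈ P ∧ (Φu P U p).1 = p.1 + G P U p + U ∧ p.2 - t0 P U p ≤ (Φu P U p).2 ∧
      (Φu P U p).2 < p.2 - t0 P U p + U := by
  have h := right_end hB (plateau hU hp hG).2 (t0_mem hU p).2
  have e : Φu P U p = h.choose := by
    unfold Φu
    rw [dif_pos h]
  rw [e]
  exact h.choose_spec

lemma upp_card (hU : 0 < U) (hk : 1 ≤ k) (hB : Bnd P U N) {p : Z2} (hp : p ∈ P)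
    (hc : cu P U k p ≠ 0) : cu P U k p ≤ (Upp P U (Φu P U p)).card := by
  obtain ⟨h1, h2, h3, h4, h5, h6, h7⟩ := upp_data hU hk hB hp hc
  obtain ⟨q0, q1, q2, q3⟩ := Φu_spec hU hB hp h2
  have hsub : (Finset.Ico (U - cu P U k p) U) ⊆ Upp P U (Φu P U p) := by
    intro s hs
    rw [Finset.mem_Ico] at hs
    rw [Upp, Finset.mem_filter, Finset.mem_range]
    refine ⟨hs.2, fun s' hs1 hs2 hf => ?_⟩
    refine hf _ h7 ⟨?_, ?_, ?_, ?_⟩
    · simp only
      omega
    · simp only
      omega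
    · simp only
      omega
    · simp only
      omega
  have := Finset.card_le_card hsub
  rw [Nat.card_Ico] at this
  omega

lemma upp_inj (hU : 0 < U) (hk : 1 ≤ k) (hB : Bnd P U N) :
    Set.InjOn (Φu P U) {p | p ∈ P ∧ cu P U k p ≠ 0} := by
  have key : ∀ p p' : Z2, p ∈ P → cu P U k p ≠ 0 → p' ∈ P → cu P U k p' ≠ 0 →
      Φu P U p = Φu P U p' → ¬ p.2 - (t0 P U p : ℤ) < p'.2 - t0 P U p' := by
    intro p p' hp hc hp' hc' he hlt
    obtain ⟨h1, h2, h3, h4, h5, h6, h7⟩ := upp_data hU hk hB hp hc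
    obtain ⟨h1', h2', h3', h4', h5', h6', h7'⟩ := upp_data hU hk hB hp' hc'
    obtain ⟨q0, q1, q2, q3⟩ := Φu_spec hU hB hp h2
    obtain ⟨q0', q1', q2', q3'⟩ := Φu_spec hU hB hp' h2'
    rw [← he] at q1' q2' q3'
    have hf := (plateau hU hp' h2').2.free
    refine hf _ h7 ⟨?_, ?_, ?_, ?_⟩
    · simp only
      omega
    · simp only
      omega
    · simp only
      omega
    · simp only
      omega
  rintro p ⟨hp, hc⟩ p' ⟨hp', hc'⟩ he
  have k1 := key p p' hp hc hp' hc' he
  have k2 := key p' p hp' hc' hp hc he.symm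
  obtain ⟨h1, h2, _⟩ := upp_data hU hk hB hp hc
  obtain ⟨h1', h2', _⟩ := upp_data hU hk hB hp' hc'
  obtain ⟨_, q1, _⟩ := Φu_spec hU hB hp h2
  obtain ⟨_, q1', _⟩ := Φu_spec hU hB hp' h2'
  rw [he] at q1
  exact (unique_R hU (plateau hU hp h2).2 (plateau hU hp' h2').2 (by omega) (by omega)).1

/-- weight of a row -/
noncomputable def ψ (U k a : ℕ) (x : ℕ) : ℝ :=
  ((U : ℝ) - a) * ((if k * U < x then 1 else 0) + (((k * U - x) / U : ℕ) : ℝ)
    - ((k : ℝ) - 1) * (if x = 0 then 1 else 0)) + (((k * U - x) % U : ℕ) : ℝ)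

lemma ψ_zero (hU : 0 < U) : ((U : ℝ) - a) ≤ ψ U k a 0 := by
  unfold ψ
  simp only [if_true, Nat.not_lt_zero, if_false, Nat.sub_zero]
  rw [Nat.mul_div_cancel _ hU]
  have h1 : (0 : ℝ) ≤ ((k * U % U : ℕ) : ℝ) := Nat.cast_nonneg _
  nlinarith

lemma ψ_wide {x : ℕ} (hx : k * U < x) : ((U : ℝ) - a) ≤ ψ U k a x := by
  unfold ψ
  rw [if_pos hx, if_neg (by omega)]
  have e : k * U - x = 0 := by omega
  rw [e]
  simp

lemma ψ_big (hU : 0 < U) (ha : a ≤ U) {x : ℕ} (hx0 : x ≠ 0) (hx : U ≤ k * U - x) :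
    ((U : ℝ) - a) ≤ ψ U k a x := by
  unfold ψ
  rw [if_neg (by omega), if_neg hx0]
  have h1 : (1 : ℝ) ≤ (((k * U - x) / U : ℕ) : ℝ) := by
    exact_mod_cast (Nat.le_div_iff_mul_le hU).2 (by omega)
  have h2 : (0 : ℝ) ≤ (((k * U - x) % U : ℕ) : ℝ) := Nat.cast_nonneg _
  have h3 : (0 : ℝ) ≤ (U : ℝ) - a := by
    have : (a : ℝ) ≤ U := by exact_mod_cast ha
    linarith
  nlinarith

lemma ψ_small {x : ℕ} (hx0 : x ≠ 0) (hx : x ≤ k * U) (hx2 : k * U - x < U) :
    ψ U k a x = (k : ℝ) * U - x := by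
  unfold ψ
  rw [if_neg (by omega), if_neg hx0, Nat.div_eq_of_lt hx2, Nat.mod_eq_of_lt hx2,
    Nat.cast_sub hx]
  push_cast
  ring

lemma ψ_nonneg (hU : 0 < U) (ha : a ≤ U) (x : ℕ) : 0 ≤ ψ U k a x := by
  have h3 : (0 : ℝ) ≤ (U : ℝ) - a := by
    have : (a : ℝ) ≤ U := by exact_mod_cast ha
    linarith
  by_cases h0 : x = 0
  · rw [h0]
    exact h3.trans (ψ_zero hU)
  by_cases h1 : k * U < x
  · exact h3.trans (ψ_wide h1)
  by_cases h2 : U ≤ k * U - x
  · exact h3.trans (ψ_big hU ha h0 h2)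
  · rw [ψ_small h0 (by omega) (by omega)]
    have : (x : ℝ) ≤ k * U := by exact_mod_cast (by omega : x ≤ k * U)
    linarith

/-- the row inequality -/
lemma row_ineq (hU : 0 < U) (ha : a ≤ U) (hN : N ≤ k * U + a) (hB : Bnd P U N) {p : Z2}
    (hp : p ∈ P) (hG : k * U < G P U p) {t : ℕ} (ht : t < U) :
    ((U : ℝ) - a) ≤ ψ U k a (g P U p t) + cl P U k p + cu P U k p := by
  have hcl : (0 : ℝ) ≤ (cl P U k p : ℝ) := Nat.cast_nonneg _
  have hcu : (0 : ℝ) ≤ (cu P U k p : ℝ) := Nat.cast_nonneg _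
  by_cases h0 : g P U p t = 0
  · rw [h0]
    linarith [ψ_zero (k := k) (a := a) hU]
  by_cases h1 : k * U < g P U p t
  · linarith [ψ_wide (k := k) (a := a) h1]
  by_cases h2 : U ≤ k * U - g P U p t
  · linarith [ψ_big (k := k) hU ha h0 h2]
  rw [ψ_small h0 (by omega) (by omega)]
  have hGN : G P U p ≤ k * U + a := (G_le hB p).trans hN
  have m1 := t1_mem (P := P) hU p
  have m0 := t0_mem (P := P) hU p
  by_cases h3 : t1 P U p < t
  · have h4 := unimodal hB hp (t₁ := t1 P U p) (t₂ := t1 P U p + 1) (t₃ := t) (by omega) (by omega) ht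
    rw [m1.2] at h4
    have h5 : g P U p t ≤ g P U p (t1 P U p + 1) := by
      rcases min_le_iff.1 h4 with h | h
      · exact (g_le_G p ht).trans h
      · exact h
    have h6 : U + g P U p t ≤ cl P U k p + (k * U + a) := by
      unfold cl
      rw [if_pos ⟨by omega, hG⟩]
      omega
    have h7 : (U : ℝ) + g P U p t ≤ cl P U k p + (k * U + a) := by exact_mod_cast h6
    linarith
  · by_cases h3' : t < t0 P U p
    · have h4 := unimodal hB hp (t₁ := t) (t₂ := t0 P U p - 1) (t₃ := t0 P U p) (by omega) (by omega)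
        m0.1
      rw [m0.2] at h4
      have h5 : g P U p t ≤ g P U p (t0 P U p - 1) := by
        rcases min_le_iff.1 h4 with h | h
        · exact h
        · exact (g_le_G p ht).trans h
      have h6 : U + g P U p t ≤ cu P U k p + (k * U + a) := by
        unfold cu
        rw [if_pos ⟨by omega, hG⟩]
        omega
      have h7 : (U : ℝ) + g P U p t ≤ cu P U k p + (k * U + a) := by exact_mod_cast h6
      linarith
    · exfalso
      have h4 := unimodal hB hp (t₁ := t0 P U p) (t₂ := t) (t₃ := t1 P U p) (by omega) (by omega)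
        m1.1
      rw [m0.2, m1.2, min_self] at h4
      omega

lemma Bd_pw (hB : Bnd P U N) (f : ℕ → ℝ) :
    Bd (fun p => if p ∈ P then ∑ t ∈ range U, f (g P U p t) else 0) := by
  refine bd_ite (Bd.sum _ fun t _ => ?_)
  refine ⟨∑ x ∈ range (N + 1), |f x|, fun p => ?_⟩
  exact Finset.single_le_sum (f := fun x => |f x|) (fun i _ => abs_nonneg _)
    (Finset.mem_range.2 (Nat.lt_succ_of_le (g_le hB p t)))

lemma low_mean (m : Mean) (hU : 0 < U) (hk : 1 ≤ k) (hB : Bnd P U N) :
    m.M (fun p => if p ∈ P then (cl P U k p : ℝ) else 0)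
      ≤ m.M (fun q => if q ∈ P then ((Low P U q).card : ℝ) else 0) := by
  have hclb : Bd (fun p => (cl P U k p : ℝ)) := by
    refine Bd.of_le (U + N) (fun _ => Nat.cast_nonneg _) fun p => ?_
    have : cl P U k p ≤ U + N := by
      unfold cl
      split_ifs
      · have := g_le hB p (t1 P U p + 1)
        omega
      · omega
    exact_mod_cast this
  have hLb : Bd (fun q => if q ∈ P then ((Low P U q).card : ℝ) else 0) := by
    refine bd_ite (Bd.of_le U (fun _ => Nat.cast_nonneg _) fun q => ?_)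
    have : (Low P U q).card ≤ U := by
      have := Finset.card_filter_le (range U) (fun s => ¬ Fr P U (q.1 - s, q.2 + 1) ∧
        ∃ s' : ℕ, s' < U ∧ s < s' ∧ Fr P U (q.1 - s', q.2 + 1))
      simpa [Low] using this
    exact_mod_cast this
  have e : (fun p => if p ∈ P then (cl P U k p : ℝ) else 0)
      = Set.indicator {p | p ∈ P ∧ cl P U k p ≠ 0} (fun p => (cl P U k p : ℝ)) := by
    funext p
    by_cases hp : p ∈ P
    · by_cases hc : cl P U k p = 0
      · rw [if_pos hp, Set.indicator_of_notMem (by simp [hc]), hc]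
        simp
      · rw [if_pos hp, Set.indicator_of_mem (show p ∈ {p | p ∈ P ∧ cl P U k p ≠ 0} from ⟨hp, hc⟩)]
    · rw [if_neg hp, Set.indicator_of_notMem (by simp [hp])]
  rw [e]
  refine m.inj_transport _ (Φl P U) ((Finset.Icc (-(N + U : ℤ)) (N + U)) ×ˢ
    (Finset.Icc (-(U : ℤ)) U)) _ _ hclb hLb ?_ ?_ (low_inj hU hk hB) ?_
  · intro q
    split_ifs
    · exact Nat.cast_nonneg _
    · exact le_rfl
  · rintro p ⟨hp, hc⟩
    obtain ⟨h1, h2, h3, h4, h5, h6, h7⟩ := low_data hU hk hB hp hc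
    have := g_le hB p (t1 P U p + 1)
    rw [Finset.mem_product, Finset.mem_Icc, Finset.mem_Icc]
    simp only [Φl, Prod.fst_sub, Prod.snd_sub]
    omega
  · rintro p ⟨hp, hc⟩
    obtain ⟨h1, h2, h3, h4, h5, h6, h7⟩ := low_data hU hk hB hp hc
    rw [if_pos (show Φl P U p ∈ P from h7)]
    exact_mod_cast low_card hU hk hB hp hc

lemma upp_mean (m : Mean) (hU : 0 < U) (hk : 1 ≤ k) (hB : Bnd P U N) :
    m.M (fun p => if p ∈ P then (cu P U k p : ℝ) else 0)
      ≤ m.M (fun q => if q ∈ P then ((Upp P U q).card : ℝ) else 0) := by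
  have hclb : Bd (fun p => (cu P U k p : ℝ)) := by
    refine Bd.of_le (U + N) (fun _ => Nat.cast_nonneg _) fun p => ?_
    have : cu P U k p ≤ U + N := by
      unfold cu
      split_ifs
      · have := g_le hB p (t0 P U p - 1)
        omega
      · omega
    exact_mod_cast this
  have hLb : Bd (fun q => if q ∈ P then ((Upp P U q).card : ℝ) else 0) := by
    refine bd_ite (Bd.of_le U (fun _ => Nat.cast_nonneg _) fun q => ?_)
    have : (Upp P U q).card ≤ U := by
      have := Finset.card_filter_le (range U) (fun s => ∀ s' : ℕ, s' < U → s ≤ s' →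
        ¬ Fr P U (q.1 - s', q.2 + 1))
      simpa [Upp] using this
    exact_mod_cast this
  have e : (fun p => if p ∈ P then (cu P U k p : ℝ) else 0)
      = Set.indicator {p | p ∈ P ∧ cu P U k p ≠ 0} (fun p => (cu P U k p : ℝ)) := by
    funext p
    by_cases hp : p ∈ P
    · by_cases hc : cu P U k p = 0
      · rw [if_pos hp, Set.indicator_of_notMem (by simp [hc]), hc]
        simp
      · rw [if_pos hp, Set.indicator_of_mem (show p ∈ {p | p ∈ P ∧ cu P U k p ≠ 0} from ⟨hp, hc⟩)]
    · rw [if_neg hp, Set.indicator_of_notMem (by simp [hp])]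
  rw [e]
  refine m.inj_transport _ (Φu P U) ((Finset.Icc (-(N + U : ℤ)) (N + U)) ×ˢ
    (Finset.Icc (-(U : ℤ)) U)) _ _ hclb hLb ?_ ?_ (upp_inj hU hk hB) ?_
  · intro q
    split_ifs
    · exact Nat.cast_nonneg _
    · exact le_rfl
  · rintro p ⟨hp, hc⟩
    obtain ⟨h1, h2, h3, h4, h5, h6, h7⟩ := upp_data hU hk hB hp hc
    obtain ⟨q0, q1, q2, q3⟩ := Φu_spec hU hB hp h2
    have := G_le hB p
    have := t0_mem (P := P) hU p
    rw [Finset.mem_product, Finset.mem_Icc, Finset.mem_Icc]
    simp only [Prod.fst_sub, Prod.snd_sub]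
    omega
  · rintro p ⟨hp, hc⟩
    obtain ⟨h1, h2, h3, h4, h5, h6, h7⟩ := upp_data hU hk hB hp hc
    obtain ⟨q0, q1, q2, q3⟩ := Φu_spec hU hB hp h2
    rw [if_pos q0]
    exact_mod_cast upp_card hU hk hB hp hc

/-- the contact relation -/
lemma contact (m : Mean) (hU : 0 < U) (hk : 1 ≤ k) (ha : a ≤ U) (hN : N ≤ k * U + a)
    (hB : Bnd P U N) {N' : ℕ} (hB' : Bnd (sw P) U N') :
    ((U : ℝ) - a) * (U * m.M (fun p => if p ∈ P then (if k * U < G P U p then 1 else 0) else 0))
      ≤ S m P U (ψ U k a) + U * S m.swap (sw P) U (fun x => if x = 0 then 1 else 0) := by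
  have b1 : Bd (fun p => if p ∈ P then (if k * U < G P U p then (1 : ℝ) else 0) else 0) :=
    bd_ite (bd_ite (Bd.const 1))
  have b2 := Bd_pw hB (ψ U k a)
  have hclb : Bd (fun p => if p ∈ P then (cl P U k p : ℝ) else 0) := by
    refine bd_ite (Bd.of_le (U + N) (fun _ => Nat.cast_nonneg _) fun p => ?_)
    have : cl P U k p ≤ U + N := by
      unfold cl
      split_ifs
      · have := g_le hB p (t1 P U p + 1)
        omega
      · omega
    exact_mod_cast this
  have hcub : Bd (fun p => if p ∈ P then (cu P U k p : ℝ) else 0) := by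
    refine bd_ite (Bd.of_le (U + N) (fun _ => Nat.cast_nonneg _) fun p => ?_)
    have : cu P U k p ≤ U + N := by
      unfold cu
      split_ifs
      · have := g_le hB p (t0 P U p - 1)
        omega
      · omega
    exact_mod_cast this
  have hLb : Bd (fun q => if q ∈ P then ((Low P U q).card : ℝ) else 0) := by
    refine bd_ite (Bd.of_le U (fun _ => Nat.cast_nonneg _) fun q => ?_)
    have : (Low P U q).card ≤ U := by
      have := Finset.card_filter_le (range U) (fun s => ¬ Fr P U (q.1 - s, q.2 + 1) ∧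
        ∃ s' : ℕ, s' < U ∧ s < s' ∧ Fr P U (q.1 - s', q.2 + 1))
      simpa [Low] using this
    exact_mod_cast this
  have hUb : Bd (fun q => if q ∈ P then ((Upp P U q).card : ℝ) else 0) := by
    refine bd_ite (Bd.of_le U (fun _ => Nat.cast_nonneg _) fun q => ?_)
    have : (Upp P U q).card ≤ U := by
      have := Finset.card_filter_le (range U) (fun s => ∀ s' : ℕ, s' < U → s ≤ s' →
        ¬ Fr P U (q.1 - s', q.2 + 1))
      simpa [Upp] using this
    exact_mod_cast this
  have hz : Bd (fun p => if p ∈ sw P then ∑ s ∈ range U,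
      (fun x : ℕ => if x = 0 then (1 : ℝ) else 0) (g (sw P) U p s) else 0) :=
    Bd_pw hB' (fun x => if x = 0 then (1 : ℝ) else 0)
  -- pointwise inequality
  have h1 : ((U : ℝ) - a) * (U * m.M (fun p => if p ∈ P then (if k * U < G P U p then 1 else 0) else 0))
      ≤ S m P U (ψ U k a) + U * (m.M (fun p => if p ∈ P then (cl P U k p : ℝ) else 0)
        + m.M (fun p => if p ∈ P then (cu P U k p : ℝ) else 0)) := by
    rw [S, ← m.add _ _ hclb hcub, ← m.smul _ _ (hclb.add hcub), ← m.smul _ _ b1,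
      ← m.smul _ _ (b1.smul _), ← m.add _ _ b2 ((hclb.add hcub).smul _)]
    refine m.mono _ _ ((b1.smul _).smul _) (b2.add ((hclb.add hcub).smul _)) fun p => ?_
    by_cases hp : p ∈ P
    · simp only [if_pos hp]
      by_cases hG : k * U < G P U p
      · rw [if_pos hG]
        have : ∑ t ∈ range U, ((U : ℝ) - a)
            ≤ ∑ t ∈ range U, (ψ U k a (g P U p t) + (cl P U k p + cu P U k p)) := by
          refine Finset.sum_le_sum fun t ht => ?_
          have := row_ineq hU ha hN hB hp hG (Finset.mem_range.1 ht)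
          linarith
        rw [Finset.sum_add_distrib, Finset.sum_const, Finset.sum_const, Finset.card_range,
          nsmul_eq_mul, nsmul_eq_mul] at this
        linarith
      · rw [if_neg hG]
        have h2 : 0 ≤ ∑ t ∈ range U, ψ U k a (g P U p t) :=
          Finset.sum_nonneg fun t _ => ψ_nonneg hU ha _
        have h3 : (0 : ℝ) ≤ U * ((cl P U k p : ℝ) + cu P U k p) := by positivity
        linarith
    · simp [if_neg hp]
  have h2 := low_mean m hU hk hB
  have h3 := upp_mean m hU hk hB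
  have h4 : m.M (fun q => if q ∈ P then ((Low P U q).card : ℝ) else 0)
      + m.M (fun q => if q ∈ P then ((Upp P U q).card : ℝ) else 0)
      ≤ S m.swap (sw P) U (fun x => if x = 0 then 1 else 0) := by
    rw [← m.add _ _ hLb hUb, S, Mean.swap_apply]
    refine m.mono _ _ (hLb.add hUb) (hz.comp _) fun q => ?_
    by_cases hq : q ∈ P
    · have hq' : q.swap ∈ sw P := by simpa [mem_sw] using hq
      rw [if_pos hq, if_pos hq, if_pos hq']
      have := low_upp_card (U := U) hq
      have h5 : ∑ s ∈ range U, (fun x : ℕ => if x = 0 then (1 : ℝ) else 0) (g (sw P) U q.swap s)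
          = (((range U).filter (fun s => g (sw P) U q.swap s = 0)).card : ℝ) := by
        rw [Finset.card_filter]
        push_cast
        rfl
      simp only at h5
      rw [h5]
      exact_mod_cast this
    · have hq' : q.swap ∉ sw P := by simpa [mem_sw] using hq
      rw [if_neg hq, if_neg hq, if_neg hq']
      simp
  have hU0 : (0 : ℝ) ≤ U := Nat.cast_nonneg _
  nlinarith [mul_le_mul_of_nonneg_left (add_le_add h2 h3) hU0, mul_le_mul_of_nonneg_left h4 hU0]

end Prc92
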