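import Pool.Agent.Prc92.Contact

/-!
# The discrete core inequality
-/

namespace Prc92

open Finset Classical

/-- one half of the final estimate -/
lemma alg_half {k ξ η x y h a C : ℝ} (hk : 1 ≤ k) (hξ0 : 0 ≤ ξ) (hξ1 : ξ < 1)
    (hh : 0 ≤ h) (ha : a ≤ ξ * h) (hC0 : 0 ≤ C) (hC : k * C ≤ a) (hx : 0 < x)
    (c1 : x * (ξ * (1 + ξ)) ≤ y * (1 - η))
    (c2 : x * ((1 - ξ) * ξ * (k + ξ)) ≤ y * (k * (1 - ξ) * (1 - η) - ξ * η)) :
    a * (y * (1 - η) - x * ξ ^ 2) + C * (y * η - x * ξ * (1 - ξ) * (k - 1))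
      ≤ (y * (1 - η) - x * ξ) * h := by
  have hA : 0 < 1 - ξ := by linarith
  have h0 : 0 ≤ y * (1 - η) - x * ξ ^ 2 := by
    have : 0 ≤ x * ξ := mul_nonneg hx.le hξ0
    nlinarith
  have h1 : a * (y * (1 - η) - x * ξ ^ 2) ≤ ξ * h * (y * (1 - η) - x * ξ ^ 2) :=
    mul_le_mul_of_nonneg_right ha h0
  rcases le_or_gt (y * η - x * ξ * (1 - ξ) * (k - 1)) 0 with hc | hc
  · have h2 : C * (y * η - x * ξ * (1 - ξ) * (k - 1)) ≤ 0 := mul_nonpos_of_nonneg_of_nonpos hC0 hc
    have h3 : 0 ≤ (1 - ξ) * h * (y * (1 - η) - x * (ξ * (1 + ξ))) :=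
      mul_nonneg (mul_nonneg hA.le hh) (by linarith)
    nlinarith
  · have h2 : k * C * (y * η - x * ξ * (1 - ξ) * (k - 1))
        ≤ a * (y * η - x * ξ * (1 - ξ) * (k - 1)) := mul_le_mul_of_nonneg_right hC hc.le
    have h3 : a * (y * η - x * ξ * (1 - ξ) * (k - 1))
        ≤ ξ * h * (y * η - x * ξ * (1 - ξ) * (k - 1)) := mul_le_mul_of_nonneg_right ha hc.le
    have h4 : 0 ≤ h * (y * (k * (1 - ξ) * (1 - η) - ξ * η) - x * ((1 - ξ) * ξ * (k + ξ))) :=
      mul_nonneg hh (by linarith)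
    have hk0 : 0 < k := by linarith
    have h5 : k * (a * (y * (1 - η) - x * ξ ^ 2))
        ≤ k * (ξ * h * (y * (1 - η) - x * ξ ^ 2)) := mul_le_mul_of_nonneg_left h1 hk0.le
    have h6 : k * (a * (y * (1 - η) - x * ξ ^ 2) + C * (y * η - x * ξ * (1 - ξ) * (k - 1)))
        ≤ k * ((y * (1 - η) - x * ξ) * h) := by
      nlinarith
    exact le_of_mul_le_mul_left h6 hk0

/-- the final estimate -/
lemma alg {k ξ η ρ h H a f C v V b e D T : ℝ} (hk : 1 ≤ k) (hξ0 : 0 ≤ ξ) (hξ1 : ξ < 1)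
    (hη0 : 0 ≤ η) (hη1 : η < 1) (hρ : 0 < ρ)
    (c1 : ρ * (ξ * (1 + ξ)) ≤ 1 - η)
    (c2 : ρ * ((1 - ξ) * ξ * (k + ξ)) ≤ k * (1 - ξ) * (1 - η) - ξ * η)
    (c3 : η * (1 + η) ≤ ρ * (1 - ξ))
    (c4 : (1 - η) * η * (k + η) ≤ ρ * (k * (1 - ξ) * (1 - η) - ξ * η))
    (hh : 0 ≤ h) (ha0 : 0 ≤ a) (hf0 : 0 ≤ f) (hC0 : 0 ≤ C)
    (hv : 0 ≤ v) (he0 : 0 ≤ e) (hD0 : 0 ≤ D)
    (hC : k * C ≤ a) (hD : k * D ≤ b)
    (r1 : T ≤ ξ * h - a - f) (r2 : T ≤ η * v - b - e)
    (r3 : v ≤ ξ * H + b) (r4 : h ≤ η * V + a)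
    (r5 : (1 - ξ) * H ≤ (1 - ξ) * (h + a - (k - 1) * C) + f + D)
    (r6 : (1 - η) * V ≤ (1 - η) * (v + b - (k - 1) * D) + e + C) : T ≤ 0 := by
  by_contra hT
  push Not at hT
  have hA : 0 < 1 - ξ := by linarith
  have hB : 0 < 1 - η := by linarith
  have haξ : a ≤ ξ * h := by linarith
  have hbη : b ≤ η * v := by linarith
  have e1 := alg_half (k := k) (ξ := ξ) (η := η) (x := ρ) (y := 1) (h := h) (a := a) (C := C)
    hk hξ0 hξ1 hh haξ hC0 hC hρ (by linarith) (by linarith)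
  have e2 := alg_half (k := k) (ξ := η) (η := ξ) (x := 1) (y := ρ) (h := v) (a := b) (C := D)
    hk hη0 hη1 hv hbη hD0 hD one_pos (by linarith) (by
      have : ρ * (k * (1 - η) * (1 - ξ) - η * ξ) = ρ * (k * (1 - ξ) * (1 - η) - ξ * η) := by ring
      rw [this]
      linarith)
  -- (I)
  have i1 : (1 - ξ) * v ≤ ξ * h - ξ ^ 2 * a - ξ * (1 - ξ) * (k - 1) * C + ξ * D + (1 - ξ) * b
      - ξ * T := by
    have s1 : (1 - ξ) * v ≤ (1 - ξ) * (ξ * H + b) := mul_le_mul_of_nonneg_left r3 hA.le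
    have s2 : ξ * ((1 - ξ) * H) ≤ ξ * ((1 - ξ) * (h + a - (k - 1) * C) + f + D) :=
      mul_le_mul_of_nonneg_left r5 hξ0
    have s3 : ξ * f ≤ ξ * (ξ * h - a - T) := mul_le_mul_of_nonneg_left (by linarith) hξ0
    nlinarith
  have i2 : (1 - η) * h ≤ η * v - η ^ 2 * b - η * (1 - η) * (k - 1) * D + η * C + (1 - η) * a
      - η * T := by
    have s1 : (1 - η) * h ≤ (1 - η) * (η * V + a) := mul_le_mul_of_nonneg_left r4 hB.le
    have s2 : η * ((1 - η) * V) ≤ η * ((1 - η) * (v + b - (k - 1) * D) + e + C) :=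
      mul_le_mul_of_nonneg_left r6 hη0
    have s3 : η * e ≤ η * (η * v - b - T) := mul_le_mul_of_nonneg_left (by linarith) hη0
    nlinarith
  have i3 : ρ * ((1 - ξ) * v) ≤ ρ * (ξ * h - ξ ^ 2 * a - ξ * (1 - ξ) * (k - 1) * C + ξ * D
      + (1 - ξ) * b - ξ * T) := mul_le_mul_of_nonneg_left i1 hρ.le
  have h7 : (ρ * ξ + η) * T ≤ 0 := by
    nlinarith
  have h8 : ρ * ξ + η ≤ 0 := by
    by_contra hcon
    push Not at hcon
    have := mul_pos hcon hT
    linarith
  have h9 : 0 ≤ ρ * ξ := mul_nonneg hρ.le hξ0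
  have h10 : ρ * ξ = 0 := by linarith
  have h11 : ξ = 0 := by
    rcases mul_eq_zero.1 h10 with h | h
    · linarith
    · exact h
  rw [h11] at r1
  linarith

variable {P : Set Z2} {U k N : ℕ}

lemma S_add (m : Mean) (hB : Bnd P U N) (f f' : ℕ → ℝ) :
    S m P U (fun x => f x + f' x) = S m P U f + S m P U f' := by
  rw [S, S, S, ← m.add _ _ (Bd_pw hB f) (Bd_pw hB f')]
  congr 1
  funext p
  split_ifs
  · rw [Finset.sum_add_distrib]
  · simp

lemma S_smul (m : Mean) (hB : Bnd P U N) (c : ℝ) (f : ℕ → ℝ) :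
    S m P U (fun x => c * f x) = c * S m P U f := by
  rw [S, S, ← m.smul _ _ (Bd_pw hB f)]
  congr 1
  funext p
  split_ifs
  · rw [Finset.mul_sum]
  · simp

lemma S_mono (m : Mean) (hB : Bnd P U N) {f f' : ℕ → ℝ} (h : ∀ x ≤ N, f x ≤ f' x) :
    S m P U f ≤ S m P U f' := by
  rw [S, S]
  refine m.mono _ _ (Bd_pw hB f) (Bd_pw hB f') fun p => ?_
  split_ifs
  · exact Finset.sum_le_sum fun t _ => h _ (g_le hB p t)
  · exact le_rfl

lemma S_nonneg (m : Mean) (hB : Bnd P U N) {f : ℕ → ℝ} (h : ∀ x, 0 ≤ f x) :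
    0 ≤ S m P U f := by
  rw [S]
  refine m.nonneg (Bd_pw hB f) fun p => ?_
  split_ifs
  · exact Finset.sum_nonneg fun t _ => h _
  · exact le_rfl

/-- the mean number of points per cell -/
noncomputable def dn (m : Mean) (P : Set Z2) : ℝ := m.M (fun p => if p ∈ P then 1 else 0)

lemma dn_sw (m : Mean) (P : Set Z2) : dn m.swap (sw P) = dn m P := by
  rw [dn, dn, Mean.swap_apply]
  congr 1

lemma S_one (m : Mean) : S m P U (fun _ => 1) = U * dn m P := by
  have hb : Bd (fun p : Z2 => if p ∈ P then (1 : ℝ) else 0) := bd_ite (Bd.const 1)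
  rw [S, dn, ← m.smul _ _ hb]
  congr 1
  funext p
  split_ifs <;> simp

/-- the mean of the free cells -/
noncomputable def fr (m : Mean) (P : Set Z2) (U : ℕ) : ℝ :=
  m.M (fun c => if Fr P U c then 1 else 0)

lemma fr_sw (m : Mean) (P : Set Z2) (U : ℕ) : fr m.swap (sw P) U = fr m P U := by
  rw [fr, fr, Mean.swap_apply]
  congr 1
  funext c
  have : Fr (sw P) U c.swap ↔ Fr P U c := by
    rw [Fr_sw]
    simp
  by_cases h : Fr P U c
  · rw [if_pos h, if_pos (this.2 h)]
  · rw [if_neg h, if_neg (fun h' => h (this.1 h'))]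

lemma fr_eq (m : Mean) (hU : 0 < U) (hB : Bnd P U N) : fr m P U = S m P U (fun x => x) := by
  have := fubini m hU hB (f := fun _ => 1) (Bd.const 1)
  rw [fr, this, S]
  congr 1
  funext p
  split_ifs <;> simp

lemma area_le (m : Mean) : 1 ≤ (U : ℝ) ^ 2 * dn m P + fr m P U := by
  have hb : Bd (fun p : Z2 => if p ∈ P then (1 : ℝ) else 0) := bd_ite (Bd.const 1)
  have hbf : Bd (fun c : Z2 => if Fr P U c then (1 : ℝ) else 0) := bd_ite (Bd.const 1)
  have h1 := m.transport (range U ×ˢ range U) (fun x => (-(x.1 : ℤ), -(x.2 : ℤ)))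
    (f := fun _ p => if p ∈ P then (1 : ℝ) else 0) (fun _ _ => hb)
  have h2 : m.M (fun z => ∑ i ∈ range U ×ˢ range U, if z ∈ P then (1 : ℝ) else 0)
      = (U : ℝ) ^ 2 * dn m P := by
    rw [dn, ← m.smul _ _ hb]
    congr 1
    funext z
    rw [Finset.sum_const, Finset.card_product, Finset.card_range, nsmul_eq_mul]
    push_cast
    ring
  rw [← h2, ← h1, fr]
  have hb2 : Bd (fun z : Z2 => ∑ i ∈ range U ×ˢ range U,
      if z - (-(i.1 : ℤ), -(i.2 : ℤ)) ∈ P then (1 : ℝ) else 0) :=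
    Bd.sum _ fun i _ => hb.comp fun z : Z2 => z - (-(i.1 : ℤ), -(i.2 : ℤ))
  rw [← m.add _ _ hb2 hbf]
  refine m.one.symm.le.trans (m.mono _ _ (Bd.const 1) (hb2.add hbf) fun z => ?_)
  by_cases hz : Fr P U z
  · rw [if_pos hz]
    have : (0 : ℝ) ≤ ∑ i ∈ range U ×ˢ range U,
      if z - (-(i.1 : ℤ), -(i.2 : ℤ)) ∈ P then (1 : ℝ) else 0 :=
      Finset.sum_nonneg fun i _ => by split_ifs <;> norm_num
    linarith
  · rw [if_neg hz, add_zero]
    obtain ⟨q, hq, h1, h2, h3, h4⟩ := exists_cover hz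
    have hmem : ((q.1 - z.1).toNat, (q.2 - z.2).toNat) ∈ range U ×ˢ range U := by
      rw [Finset.mem_product, Finset.mem_range, Finset.mem_range]
      simp only
      omega
    have := Finset.single_le_sum (f := fun i : ℕ × ℕ =>
      if z - (-(i.1 : ℤ), -(i.2 : ℤ)) ∈ P then (1 : ℝ) else 0)
      (fun i _ => by split_ifs <;> norm_num) hmem
    refine le_trans ?_ this
    have e : z - (-(((q.1 - z.1).toNat : ℕ) : ℤ), -(((q.2 - z.2).toNat : ℕ) : ℤ)) = q := by
      ext
      · simp only [Prod.fst_sub]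
        omega
      · simp only [Prod.snd_sub]
        omega
    simp only
    rw [e, if_pos hq]

/-- relation (1) -/
lemma rel1 (m : Mean) (hU : 0 < U) {a : ℕ} (hN : N ≤ k * U + a) (hB : Bnd P U N) :
    fr m P U ≤ (k : ℝ) * U * (U * dn m P) + a * S m P U (fun x => if k * U < x then 1 else 0)
      - U * S m P U (fun x => (((k * U - x) / U : ℕ) : ℝ))
      - S m P U (fun x => (((k * U - x) % U : ℕ) : ℝ)) := by
  have h1 : fr m P U ≤ S m P U (fun x => (k : ℝ) * U * 1
      + ((a : ℝ) * (if k * U < x then 1 else 0)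
      + ((-(U : ℝ)) * (((k * U - x) / U : ℕ) : ℝ)
      + (-1) * (((k * U - x) % U : ℕ) : ℝ)))) := by
    rw [fr_eq m hU hB]
    refine S_mono m hB fun x hx => ?_
    by_cases h : k * U < x
    · rw [if_pos h]
      have e : k * U - x = 0 := by omega
      rw [e]
      have : (x : ℝ) ≤ k * U + a := by exact_mod_cast hx.trans hN
      simp
      linarith
    · rw [if_neg h]
      have h2 : U * ((k * U - x) / U) + (k * U - x) % U = k * U - x := Nat.div_add_mod _ _
      have h3 : (U : ℝ) * (((k * U - x) / U : ℕ) : ℝ) + (((k * U - x) % U : ℕ) : ℝ)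
          = (k : ℝ) * U - x := by
        have h4 : (k : ℝ) * U - x = ((k * U - x : ℕ) : ℝ) := by
          rw [Nat.cast_sub (by omega)]
          push_cast
          ring
        rw [h4, ← h2]
        push_cast
        rw [h2]
      linarith
  rw [S_add m hB, S_add m hB, S_add m hB, S_smul m hB, S_smul m hB, S_smul m hB, S_smul m hB,
    S_one] at h1
  linarith

/-- relation (3) -/
lemma rel3 (m : Mean) (hU : 0 < U) {a : ℕ} (hN : N ≤ k * U + a) (hB : Bnd P U N)
    {N' : ℕ} (hB' : Bnd (sw P) U N') :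
    S m.swap (sw P) U (fun x => if k * U < x then 1 else 0)
      ≤ a * m.M (fun p => if p ∈ P then (if k * U < G P U p then 1 else 0) else 0)
        + S m.swap (sw P) U (fun x => (((k * U - x) / U : ℕ) : ℝ)) := by
  have b0 : Bd (fun p => if p ∈ P then (G P U p : ℝ) else 0) := by
    refine bd_ite (Bd.of_le N (fun _ => Nat.cast_nonneg _) fun p => ?_)
    exact_mod_cast G_le hB p
  have b1 : Bd (fun p => if p ∈ P then (if k * U < G P U p then (1 : ℝ) else 0) else 0) :=
    bd_ite (bd_ite (Bd.const 1))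
  have b2 : Bd (fun p : Z2 => if p ∈ P then (1 : ℝ) else 0) := bd_ite (Bd.const 1)
  -- upper bound
  have h1 : m.M (fun p => if p ∈ P then (G P U p : ℝ) else 0)
      ≤ (k : ℝ) * U * dn m P
        + a * m.M (fun p => if p ∈ P then (if k * U < G P U p then 1 else 0) else 0) := by
    rw [dn, ← m.smul _ _ b2, ← m.smul _ _ b1, ← m.add _ _ (b2.smul _) (b1.smul _)]
    refine m.mono _ _ b0 ((b2.smul _).add (b1.smul _)) fun p => ?_
    by_cases hp : p ∈ P
    · simp only [if_pos hp]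
      by_cases hG : k * U < G P U p
      · rw [if_pos hG]
        have : (G P U p : ℝ) ≤ k * U + a := by exact_mod_cast (G_le hB p).trans hN
        linarith
      · rw [if_neg hG]
        have : (G P U p : ℝ) ≤ k * U := by exact_mod_cast (by omega : G P U p ≤ k * U)
        linarith
    · simp [if_neg hp]
  -- lower bound
  have b3 : Bd (fun q : Z2 => if q ∈ sw P then ∑ s ∈ range U,
          ∑ j ∈ Icc 1 (g (sw P) U q s), χ P U N (q.2 - s, q.1 + j) else 0) := by
    obtain ⟨C, hC⟩ := (χ_bd (P := P) (U := U) (N := N))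
    have hC0 : 0 ≤ C := (abs_nonneg _).trans (hC (0, 0))
    refine bd_ite (Bd.sum _ fun s _ => ⟨N' * C, fun q => ?_⟩)
    calc |∑ j ∈ Icc 1 (g (sw P) U q s), χ P U N (q.2 - s, q.1 + j)|
        ≤ ∑ j ∈ Icc 1 (g (sw P) U q s), |χ P U N (q.2 - s, q.1 + j)| :=
          Finset.abs_sum_le_sum_abs _ _
      _ ≤ ∑ j ∈ Icc 1 (g (sw P) U q s), C := Finset.sum_le_sum fun j _ => hC _
      _ = (g (sw P) U q s : ℝ) * C := by
          rw [Finset.sum_const, Nat.card_Icc, nsmul_eq_mul]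
          simp
      _ ≤ N' * C := by
          apply mul_le_mul_of_nonneg_right _ hC0
          exact_mod_cast g_le hB' q s
  have h2 : S m.swap (sw P) U (fun x => (k : ℝ) * 1 + ((if k * U < x then 1 else 0)
      + (-1) * (((k * U - x) / U : ℕ) : ℝ)))
      ≤ m.M (fun p => if p ∈ P then (G P U p : ℝ) else 0) := by
    rw [cross_mean m hU hB hB', S]
    refine m.swap.mono _ _ (Bd_pw hB' (fun x => (k : ℝ) * 1 + ((if k * U < x then 1 else 0)
      + (-1) * (((k * U - x) / U : ℕ) : ℝ)))) b3 fun q => ?_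
    by_cases hq : q ∈ sw P
    · rw [if_pos hq, if_pos hq]
      refine Finset.sum_le_sum fun s hs => ?_
      obtain ⟨n, hn1, hn2⟩ := cross_local hU hB hB' hq (Finset.mem_range.1 hs)
      rw [hn1]
      set J := g (sw P) U q s with hJ
      by_cases hJk : k * U < J
      · rw [if_pos hJk]
        have e : k * U - J = 0 := by omega
        rw [e]
        have h3 : k + 1 ≤ n := by
          by_contra hcon
          have h4 : n ≤ k := by omega
          have h5 : U * n ≤ U * k := Nat.mul_le_mul_left _ h4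
          rw [Nat.mul_comm U k] at h5
          omega
        have h6 : (k : ℝ) + 1 ≤ n := by exact_mod_cast h3
        simp
        linarith
      · rw [if_neg hJk]
        have h3 : k ≤ n + (k * U - J) / U := by
          have h4 : k * U ≤ (k * U - J) + U * n := by omega
          have h5 : k * U / U ≤ ((k * U - J) + U * n) / U := Nat.div_le_div_right h4
          rw [Nat.mul_div_cancel _ hU, Nat.add_mul_div_left _ _ hU] at h5
          omega
        have h6 : (k : ℝ) ≤ n + (((k * U - J) / U : ℕ) : ℝ) := by exact_mod_cast h3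
        linarith
    · rw [if_neg hq, if_neg hq]
  rw [S_add m.swap hB', S_add m.swap hB', S_smul m.swap hB', S_smul m.swap hB', S_one, dn_sw] at h2
  have h3 : (k : ℝ) * (U * dn m P) = (k : ℝ) * U * dn m P := by ring
  linarith

/-- relation (5) in terms of the sums -/
lemma rel5 (m : Mean) (hU : 0 < U) (hk : 1 ≤ k) {a : ℕ} (ha : a ≤ U) (hN : N ≤ k * U + a)
    (hB : Bnd P U N) {N' : ℕ} (hB' : Bnd (sw P) U N') :
    ((U : ℝ) - a) * (U * m.M (fun p => if p ∈ P then (if k * U < G P U p then 1 else 0) else 0))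
      ≤ ((U : ℝ) - a) * (S m P U (fun x => if k * U < x then 1 else 0)
          + S m P U (fun x => (((k * U - x) / U : ℕ) : ℝ))
          - ((k : ℝ) - 1) * S m P U (fun x => if x = 0 then 1 else 0))
        + S m P U (fun x => (((k * U - x) % U : ℕ) : ℝ))
        + U * S m.swap (sw P) U (fun x => if x = 0 then 1 else 0) := by
  have h1 := contact m hU hk ha hN hB hB'
  have h2 : S m P U (ψ U k a) = S m P U (fun x =>
      ((U : ℝ) - a) * ((if k * U < x then 1 else 0) + ((((k * U - x) / U : ℕ) : ℝ)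
        + (-((k : ℝ) - 1)) * (if x = 0 then 1 else 0)))
        + (((k * U - x) % U : ℕ) : ℝ)) := by
    congr 1
    funext x
    unfold ψ
    ring
  rw [S_add m hB, S_smul m hB, S_add m hB, S_add m hB, S_smul m hB] at h2
  rw [h2] at h1
  linarith

/-- `k C ≤ a` -/
lemma rel0 (m : Mean) (hU : 0 < U) (hB : Bnd P U N) :
    (k : ℝ) * S m P U (fun x => if x = 0 then 1 else 0)
      ≤ S m P U (fun x => (((k * U - x) / U : ℕ) : ℝ)) := by
  rw [← S_smul m hB]
  refine S_mono m hB fun x _ => ?_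
  by_cases h : x = 0
  · rw [if_pos h, h, Nat.sub_zero, Nat.mul_div_cancel _ hU, mul_one]
  · rw [if_neg h, mul_zero]
    exact Nat.cast_nonneg _

/-- the core inequality -/
theorem core (m : Mean) (hU : 0 < U) (hk : 1 ≤ k) {a b : ℕ} (ha : a < U) (hb : b < U)
    (hB : Bnd P U (k * U + a)) (hB' : Bnd (sw P) U (k * U + b)) {ξ η ρ : ℝ}
    (hξ : (a : ℝ) = ξ * U) (hη : (b : ℝ) = η * U) (hρ : 0 < ρ)
    (c1 : ρ * (ξ * (1 + ξ)) ≤ 1 - η)
    (c2 : ρ * ((1 - ξ) * ξ * (k + ξ)) ≤ k * (1 - ξ) * (1 - η) - ξ * η)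
    (c3 : η * (1 + η) ≤ ρ * (1 - ξ))
    (c4 : (1 - η) * η * (k + η) ≤ ρ * (k * (1 - ξ) * (1 - η) - ξ * η)) :
    1 ≤ ((k : ℝ) + 1) * (U : ℝ) ^ 2 * dn m P := by
  have hU' : (0 : ℝ) < U := by exact_mod_cast hU
  have hk' : (1 : ℝ) ≤ k := by exact_mod_cast hk
  have hξ0 : 0 ≤ ξ := by
    by_contra h
    push Not at h
    have h1 : ξ * U < 0 := mul_neg_of_neg_of_pos h hU'
    have h2 : (0 : ℝ) ≤ a := Nat.cast_nonneg _
    linarith
  have hη0 : 0 ≤ η := by
    by_contra h
    push Not at h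
    have h1 : η * U < 0 := mul_neg_of_neg_of_pos h hU'
    have h2 : (0 : ℝ) ≤ b := Nat.cast_nonneg _
    linarith
  have hξ1 : ξ < 1 := by
    by_contra h
    push Not at h
    have h1 : 1 * (U : ℝ) ≤ ξ * U := mul_le_mul_of_nonneg_right h hU'.le
    have h2 : (a : ℝ) < U := by exact_mod_cast ha
    linarith
  have hη1 : η < 1 := by
    by_contra h
    push Not at h
    have h1 : 1 * (U : ℝ) ≤ η * U := mul_le_mul_of_nonneg_right h hU'.le
    have h2 : (b : ℝ) < U := by exact_mod_cast hb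
    linarith
  have hBB : Bnd (sw (sw P)) U (k * U + a) := by rwa [sw_sw]
  have hss : m.swap.swap = m := rfl
  set Hp := m.M (fun p => if p ∈ P then (if k * U < G P U p then (1 : ℝ) else 0) else 0) with hHp
  set Vp := m.swap.M (fun p => if p ∈ sw P then
    (if k * U < G (sw P) U p then (1 : ℝ) else 0) else 0) with hVp
  have q1 := rel1 m hU le_rfl hB
  have q2 := rel1 m.swap hU le_rfl hB'
  have q3 := rel3 m hU le_rfl hB hB'
  have q4 := rel3 m.swap hU le_rfl hB' hBB
  have q5 := rel5 m hU hk ha.le le_rfl hB hB'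
  have q6 := rel5 m.swap hU hk hb.le le_rfl hB' hBB
  have q7 := rel0 (k := k) m hU hB
  have q8 := rel0 (k := k) m.swap hU hB'
  rw [fr_sw, dn_sw] at q2
  rw [hss, sw_sw] at q4 q6
  set h := S m P U (fun x => if k * U < x then 1 else 0) with hh
  set v := S m.swap (sw P) U (fun x => if k * U < x then 1 else 0) with hv
  set ai := S m P U (fun x => (((k * U - x) / U : ℕ) : ℝ)) with hai
  set bi := S m.swap (sw P) U (fun x => (((k * U - x) / U : ℕ) : ℝ)) with hbi
  set af := S m P U (fun x => (((k * U - x) % U : ℕ) : ℝ)) with haf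
  set bf := S m.swap (sw P) U (fun x => (((k * U - x) % U : ℕ) : ℝ)) with hbf
  set C := S m P U (fun x => if x = 0 then 1 else 0) with hC
  set D := S m.swap (sw P) U (fun x => if x = 0 then 1 else 0) with hD
  have n1 : 0 ≤ h := S_nonneg m hB fun x => by split_ifs <;> norm_num
  have n2 : 0 ≤ v := S_nonneg m.swap hB' fun x => by split_ifs <;> norm_num
  have n3 : 0 ≤ ai := S_nonneg m hB fun x => Nat.cast_nonneg _
  have n4 : 0 ≤ bi := S_nonneg m.swap hB' fun x => Nat.cast_nonneg _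
  have n5 : 0 ≤ af := S_nonneg m hB fun x => Nat.cast_nonneg _
  have n6 : 0 ≤ bf := S_nonneg m.swap hB' fun x => Nat.cast_nonneg _
  have n7 : 0 ≤ C := S_nonneg m hB fun x => by split_ifs <;> norm_num
  have n8 : 0 ≤ D := S_nonneg m.swap hB' fun x => by split_ifs <;> norm_num
  set F := fr m P U with hF
  set n := dn m P with hn
  have hT := alg (k := (k : ℝ)) (ξ := ξ) (η := η) (ρ := ρ) (h := h) (H := U * Hp) (a := ai)
    (f := af / U) (C := C) (v := v) (V := U * Vp) (b := bi) (e := bf / U) (D := D)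
    (T := (F - k * U * (U * n)) / U) hk' hξ0 hξ1 hη0 hη1 hρ c1 c2 c3 c4 n1 n3
    (div_nonneg n5 hU'.le) n7 n2 (div_nonneg n6 hU'.le) n8 q7 q8
    (by
      rw [div_le_iff₀ hU']
      have e : (ξ * h - ai - af / U) * U = ξ * U * h - U * ai - af := by
        field_simp
      rw [e, ← hξ]
      linarith)
    (by
      rw [div_le_iff₀ hU']
      have e : (η * v - bi - bf / U) * U = η * U * v - U * bi - bf := by
        field_simp
      rw [e, ← hη]
      linarith)
    (by
      have e : ξ * (U * Hp) = a * Hp := by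
        rw [hξ]
        ring
      rw [e]
      exact q3)
    (by
      have e : η * (U * Vp) = b * Vp := by
        rw [hη]
        ring
      rw [e]
      exact q4)
    (by
      refine le_of_mul_le_mul_left ?_ hU'
      have e1 : (U : ℝ) * ((1 - ξ) * (U * Hp)) = ((U : ℝ) - a) * (U * Hp) := by
        rw [hξ]
        ring
      have e2 : (U : ℝ) * ((1 - ξ) * (h + ai - (k - 1) * C) + af / U + D)
          = ((U : ℝ) - a) * (h + ai - (k - 1) * C) + af + U * D := by
        rw [hξ]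
        field_simp
      rw [e1, e2]
      exact q5)
    (by
      refine le_of_mul_le_mul_left ?_ hU'
      have e1 : (U : ℝ) * ((1 - η) * (U * Vp)) = ((U : ℝ) - b) * (U * Vp) := by
        rw [hη]
        ring
      have e2 : (U : ℝ) * ((1 - η) * (v + bi - (k - 1) * D) + bf / U + C)
          = ((U : ℝ) - b) * (v + bi - (k - 1) * D) + bf + U * C := by
        rw [hη]
        field_simp
      rw [e1, e2]
      exact q6)
  have hT2 : F - k * U * (U * n) ≤ 0 := by
    by_contra hcon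
    push Not at hcon
    have := div_pos hcon hU'
    linarith
  have := area_le (P := P) (U := U) m
  nlinarith

end Prc92
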