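import Pool.Agent.Prc92.Dens

/-!
# The lattice
-/

namespace Prc92

open Finset Filter Topology Classical

/-- the lattice generated by `(w, h)` and `(0, (k+1) h)` -/
def Lt (k : ℕ) (w h : ℝ) : Set (ℝ × ℝ) :=
  {q | ∃ i j : ℤ, q = ((i : ℝ) * w, ((i : ℝ) + j * (k + 1)) * h)}

lemma ceil_between {x c : ℝ} (hc : 0 < c) : x ≤ ⌈x / c⌉ * c ∧ (⌈x / c⌉ : ℝ) * c ≤ x + c := by
  constructor
  · have := Int.le_ceil (x / c)
    rwa [div_le_iff₀ hc] at this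
  · have h1 : (⌈x / c⌉ : ℝ) ≤ x / c + 1 := (Int.ceil_lt_add_one _).le
    have h2 := mul_le_mul_of_nonneg_right h1 hc.le
    have h3 : (x / c + 1) * c = x + c := by field_simp
    linarith

lemma lat_pierce1 {k : ℕ} {w h : ℝ} (hw : 0 < w) (hh : 0 < h) (a b : ℝ) :
    ∃ q ∈ Lt k w h, a ≤ q.1 ∧ q.1 ≤ a + (k + 1) * w ∧ b ≤ q.2 ∧ q.2 ≤ b + h := by
  have hk : (0 : ℝ) < (k + 1) * w := by positivity
  obtain ⟨h1, h2⟩ := ceil_between (x := b) hh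
  set j0 : ℤ := ⌈b / h⌉ with hj0
  obtain ⟨h3, h4⟩ := ceil_between (x := a - j0 * w) hk
  set t : ℤ := ⌈(a - j0 * w) / ((k + 1) * w)⌉ with ht
  refine ⟨(((j0 + t * (k + 1) : ℤ) : ℝ) * w, (((j0 + t * (k + 1) : ℤ) : ℝ) + (-t : ℤ) * (k + 1)) * h),
    ⟨j0 + t * (k + 1), -t, rfl⟩, ?_, ?_, ?_, ?_⟩
  · simp only
    push_cast
    linarith
  · simp only
    push_cast
    linarith
  · simp only
    push_cast
    have e : ((j0 : ℝ) + t * (k + 1) + -t * (k + 1)) * h = j0 * h := by ring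
    rw [e]
    exact h1
  · simp only
    push_cast
    have e : ((j0 : ℝ) + t * (k + 1) + -t * (k + 1)) * h = j0 * h := by ring
    rw [e]
    exact h2

lemma lat_pierce2 {k : ℕ} {w h : ℝ} (hw : 0 < w) (hh : 0 < h) (a b : ℝ) :
    ∃ q ∈ Lt k w h, a ≤ q.1 ∧ q.1 ≤ a + w ∧ b ≤ q.2 ∧ q.2 ≤ b + (k + 1) * h := by
  have hk : (0 : ℝ) < (k + 1) * h := by positivity
  obtain ⟨h1, h2⟩ := ceil_between (x := a) hw
  set i0 : ℤ := ⌈a / w⌉ with hi0
  obtain ⟨h3, h4⟩ := ceil_between (x := b - i0 * h) hk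
  set t : ℤ := ⌈(b - i0 * h) / ((k + 1) * h)⌉ with ht
  refine ⟨((i0 : ℝ) * w, ((i0 : ℝ) + t * (k + 1)) * h), ⟨i0, t, rfl⟩, h1, h2, ?_, ?_⟩
  · simp only
    linarith
  · simp only
    linarith

lemma icc_card_le {x y : ℝ} (h : x ≤ y) : ((Finset.Icc ⌈x⌉ ⌊y⌋).card : ℝ) ≤ y - x + 1 := by
  rw [Int.card_Icc]
  have h1 : (⌊y⌋ : ℝ) ≤ y := Int.floor_le y
  have h2 : x ≤ (⌈x⌉ : ℝ) := Int.le_ceil x
  rcases le_or_gt 0 (⌊y⌋ + 1 - ⌈x⌉) with h3 | h3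
  · have : (((⌊y⌋ + 1 - ⌈x⌉).toNat : ℕ) : ℝ) = ((⌊y⌋ + 1 - ⌈x⌉ : ℤ) : ℝ) := by
      exact_mod_cast congrArg (Int.cast : ℤ → ℝ) (Int.toNat_of_nonneg h3)
    rw [this]
    push_cast
    linarith
  · rw [Int.toNat_of_nonpos h3.le]
    push_cast
    linarith

lemma lat_count {k : ℕ} {w h : ℝ} (hw : 0 < w) (hh : 0 < h) {r : ℝ} (hr : 0 < r) :
    ((Lt k w h ∩ bx r).encard : ENNReal)
      ≤ ENNReal.ofReal ((2 * r / w + 1) * (2 * r / ((k + 1) * h) + 1)) := by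
  have hk : (0 : ℝ) < (k : ℝ) + 1 := by positivity
  set T : Finset (ℝ × ℝ) := (Finset.Icc ⌈-r / w⌉ ⌊r / w⌋).biUnion (fun i =>
    (Finset.Icc ⌈(-r / h - i) / (k + 1)⌉ ⌊(r / h - i) / (k + 1)⌋).image
      (fun j : ℤ => (((i : ℝ) * w, ((i : ℝ) + j * (k + 1)) * h) : ℝ × ℝ))) with hT
  have hsub : Lt k w h ∩ bx r ⊆ (T : Set (ℝ × ℝ)) := by
    rintro q ⟨⟨i, j, rfl⟩, hq⟩
    rw [bx, Set.mem_prod, Set.mem_Icc, Set.mem_Icc] at hq
    obtain ⟨⟨h1, h2⟩, h3, h4⟩ := hq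
    simp only at h1 h2 h3 h4
    rw [hT, Finset.mem_coe, Finset.mem_biUnion]
    refine ⟨i, ?_, ?_⟩
    · rw [Finset.mem_Icc, Int.ceil_le, Int.le_floor, div_le_iff₀ hw, le_div_iff₀ hw]
      exact ⟨h1, h2⟩
    · rw [Finset.mem_image]
      refine ⟨j, ?_, rfl⟩
      rw [Finset.mem_Icc, Int.ceil_le, Int.le_floor, div_le_iff₀ hk, le_div_iff₀ hk, sub_le_iff_le_add,
        le_sub_iff_add_le, div_le_iff₀ hh, le_div_iff₀ hh]
      constructor
      · linarith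
      · linarith
  have hcard : (T.card : ℝ) ≤ (2 * r / w + 1) * (2 * r / ((k + 1) * h) + 1) := by
    have h1 : T.card ≤ ∑ i ∈ Finset.Icc ⌈-r / w⌉ ⌊r / w⌋,
        (Finset.Icc ⌈(-r / h - i) / (k + 1)⌉ ⌊(r / h - i) / (k + 1)⌋).card :=
      Finset.card_biUnion_le.trans (Finset.sum_le_sum fun i _ => Finset.card_image_le)
    have h2 : (T.card : ℝ) ≤ ∑ i ∈ Finset.Icc ⌈-r / w⌉ ⌊r / w⌋,
        ((Finset.Icc ⌈(-r / h - i) / ((k : ℝ) + 1)⌉ ⌊(r / h - i) / ((k : ℝ) + 1)⌋).card : ℝ) := by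
      exact_mod_cast h1
    refine h2.trans ?_
    have h3 : ∀ i ∈ Finset.Icc ⌈-r / w⌉ ⌊r / w⌋,
        ((Finset.Icc ⌈(-r / h - i) / ((k : ℝ) + 1)⌉ ⌊(r / h - i) / ((k : ℝ) + 1)⌋).card : ℝ)
        ≤ 2 * r / ((k + 1) * h) + 1 := by
      intro i _
      have h5 : -r / h ≤ r / h := div_le_div_of_nonneg_right (by linarith) hh.le
      have h4 : (-r / h - i) / ((k : ℝ) + 1) ≤ (r / h - i) / (k + 1) :=
        div_le_div_of_nonneg_right (by linarith) hk.le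
      refine (icc_card_le h4).trans (le_of_eq ?_)
      field_simp
      ring
    refine (Finset.sum_le_sum h3).trans ?_
    rw [Finset.sum_const, nsmul_eq_mul]
    refine mul_le_mul_of_nonneg_right ?_ (by positivity)
    have h5 : -r / w ≤ r / w := div_le_div_of_nonneg_right (by linarith) hw.le
    refine (icc_card_le h5).trans (le_of_eq ?_)
    field_simp
    ring
  have h1 : (Lt k w h ∩ bx r).encard ≤ (T.card : ℕ∞) := by
    rw [← Set.encard_coe_eq_coe_finsetCard]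
    exact Set.encard_le_encard hsub
  have h2 : ((Lt k w h ∩ bx r).encard : ENNReal) ≤ ((T.card : ℕ∞) : ENNReal) :=
    ENat.toENNReal_mono h1
  refine h2.trans ?_
  rw [ENat.toENNReal_coe, ← ENNReal.ofReal_natCast]
  exact ENNReal.ofReal_le_ofReal hcard

/-- the density of the lattice -/
lemma lat_density {k : ℕ} {w h : ℝ} (hw : 0 < w) (hh : 0 < h) :
    limsup (fun r : ℝ => ((Lt k w h ∩ bx r).encard : ENNReal) / ENNReal.ofReal (4 * r ^ 2)) atTop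
      ≤ ENNReal.ofReal (1 / ((k + 1) * w * h)) := by
  have hk : (0 : ℝ) < (k : ℝ) + 1 := by positivity
  have h1 : Tendsto (fun r : ℝ => ENNReal.ofReal ((1 / w + 1 / (2 * r))
      * (1 / ((k + 1) * h) + 1 / (2 * r)))) atTop (𝓝 (ENNReal.ofReal (1 / ((k + 1) * w * h)))) := by
    refine ENNReal.tendsto_ofReal ?_
    have h2 : Tendsto (fun r : ℝ => 1 / (2 * r)) atTop (𝓝 0) :=
      Tendsto.div_atTop tendsto_const_nhds (Tendsto.const_mul_atTop two_pos tendsto_id)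
    have h3 := (h2.const_add (1 / w)).mul (h2.const_add (1 / (((k : ℝ) + 1) * h)))
    have e : (1 / w + 0) * (1 / (((k : ℝ) + 1) * h) + 0) = 1 / ((k + 1) * w * h) := by
      field_simp
      ring
    rw [e] at h3
    exact h3
  rw [← h1.limsup_eq]
  refine limsup_le_limsup ?_
  filter_upwards [eventually_gt_atTop 0] with r hr
  have h4 : (0 : ℝ) < 4 * r ^ 2 := by positivity
  rw [ENNReal.div_le_iff_le_mul (Or.inl (by rw [Ne, ENNReal.ofReal_eq_zero]; linarith))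
        (Or.inl ENNReal.ofReal_ne_top), ← ENNReal.ofReal_mul (by positivity)]
  refine (lat_count hw hh hr).trans (ENNReal.ofReal_le_ofReal (le_of_eq ?_))
  field_simp
  ring

end Prc92
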