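import Mathlib

/-!
# Shift-invariant means on bounded functions on `ℤ × ℤ`

A shift-invariant positive normalised linear functional on bounded functions, with the mass transport
lemmas used for the piercing problem.
-/

namespace Prc92

open Finset

/-- the grid -/
abbrev Z2 := ℤ × ℤ

/-- bounded function on the grid -/
def Bd (f : Z2 → ℝ) : Prop := ∃ C : ℝ, ∀ z, |f z| ≤ C

lemma Bd.add {f g : Z2 → ℝ} (hf : Bd f) (hg : Bd g) : Bd (fun z => f z + g z) := by
  obtain ⟨C, hC⟩ := hf
  obtain ⟨D, hD⟩ := hg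
  exact ⟨C + D, fun z => (abs_add_le _ _).trans (add_le_add (hC z) (hD z))⟩

lemma Bd.mul {f g : Z2 → ℝ} (hf : Bd f) (hg : Bd g) : Bd (fun z => f z * g z) := by
  obtain ⟨C, hC⟩ := hf
  obtain ⟨D, hD⟩ := hg
  refine ⟨C * D, fun z => ?_⟩
  rw [abs_mul]
  exact mul_le_mul (hC z) (hD z) (abs_nonneg _) ((abs_nonneg _).trans (hC z))

lemma Bd.const (c : ℝ) : Bd (fun _ => c) := ⟨|c|, fun _ => le_rfl⟩

lemma Bd.smul {f : Z2 → ℝ} (c : ℝ) (hf : Bd f) : Bd (fun z => c * f z) := (Bd.const c).mul hf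

lemma Bd.neg {f : Z2 → ℝ} (hf : Bd f) : Bd (fun z => - f z) := by
  obtain ⟨C, hC⟩ := hf
  exact ⟨C, fun z => by rw [abs_neg]; exact hC z⟩

lemma Bd.sub {f g : Z2 → ℝ} (hf : Bd f) (hg : Bd g) : Bd (fun z => f z - g z) := by
  simpa [sub_eq_add_neg] using hf.add hg.neg

lemma Bd.comp {f : Z2 → ℝ} (hf : Bd f) (e : Z2 → Z2) : Bd (fun z => f (e z)) := by
  obtain ⟨C, hC⟩ := hf
  exact ⟨C, fun z => hC _⟩

lemma Bd.sum {ι : Type*} (s : Finset ι) {f : ι → Z2 → ℝ} (hf : ∀ i ∈ s, Bd (f i)) :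
    Bd (fun z => ∑ i ∈ s, f i z) := by
  classical
  induction s using Finset.induction_on with
  | empty => simpa using Bd.const 0
  | insert a s ha ih =>
    simp_rw [Finset.sum_insert ha]
    exact (hf a (Finset.mem_insert_self _ _)).add
      (ih fun i hi => hf i (Finset.mem_insert_of_mem hi))

lemma Bd.of_le {f : Z2 → ℝ} (C : ℝ) (h0 : ∀ z, 0 ≤ f z) (h1 : ∀ z, f z ≤ C) : Bd f :=
  ⟨C, fun z => by rw [abs_of_nonneg (h0 z)]; exact h1 z⟩

/-- a shift invariant mean -/
structure Mean where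
  /-- the functional -/
  M : (Z2 → ℝ) → ℝ
  add : ∀ f g, Bd f → Bd g → M (fun z => f z + g z) = M f + M g
  smul : ∀ (c : ℝ) f, Bd f → M (fun z => c * f z) = c * M f
  mono : ∀ f g, Bd f → Bd g → (∀ z, f z ≤ g z) → M f ≤ M g
  shift : ∀ f, Bd f → ∀ d : Z2, M (fun z => f (z + d)) = M f
  one : M (fun _ => 1) = 1

namespace Mean

variable (m : Mean)

lemma zero : m.M (fun _ => 0) = 0 := by
  have := m.smul 0 (fun _ => 1) (Bd.const 1)
  simpa using this

lemma const (c : ℝ) : m.M (fun _ => c) = c := by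
  have := m.smul c (fun _ => 1) (Bd.const 1)
  simpa [m.one] using this

lemma nonneg {f : Z2 → ℝ} (hf : Bd f) (h : ∀ z, 0 ≤ f z) : 0 ≤ m.M f := by
  rw [← m.zero]
  exact m.mono _ _ (Bd.const 0) hf h

lemma sum {ι : Type*} (s : Finset ι) {f : ι → Z2 → ℝ} (hf : ∀ i ∈ s, Bd (f i)) :
    m.M (fun z => ∑ i ∈ s, f i z) = ∑ i ∈ s, m.M (f i) := by
  classical
  induction s using Finset.induction_on with
  | empty => simpa using m.zero
  | insert a s ha ih =>
    simp_rw [Finset.sum_insert ha]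
    have h1 : ∀ i ∈ s, Bd (f i) := fun i hi => hf i (Finset.mem_insert_of_mem hi)
    rw [m.add _ _ (hf a (Finset.mem_insert_self _ _)) (Bd.sum s h1), ih h1]

/-- mass transport: an indexed family of shifted functions -/
lemma transport {ι : Type*} (s : Finset ι) {f : ι → Z2 → ℝ} (d : ι → Z2)
    (hf : ∀ i ∈ s, Bd (f i)) :
    m.M (fun z => ∑ i ∈ s, f i (z - d i)) = m.M (fun z => ∑ i ∈ s, f i z) := by
  have h2 : ∀ i ∈ s, Bd (fun z => f i (z - d i)) := fun i hi => (hf i hi).comp fun z => z - d i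
  rw [m.sum s hf, m.sum s (f := fun i z => f i (z - d i)) h2]
  refine Finset.sum_congr rfl fun i hi => ?_
  have h := m.shift (f i) (hf i hi) (- d i)
  rw [← h]
  congr 1

/-- mass transport along an injective map with bounded displacement -/
lemma inj_transport (S : Set Z2) (Φ : Z2 → Z2) (D : Finset Z2) (w u : Z2 → ℝ)
    (hw : Bd w) (hu : Bd u) (hu0 : ∀ q, 0 ≤ u q)
    (hD : ∀ p ∈ S, Φ p - p ∈ D) (hinj : Set.InjOn Φ S) (hle : ∀ p ∈ S, w p ≤ u (Φ p)) :
    m.M (S.indicator w) ≤ m.M u := by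
  classical
  set f : Z2 → Z2 → ℝ := fun d p => if p ∈ S ∧ Φ p = p + d then w p else 0 with hf
  have hfb : ∀ d ∈ D, Bd (f d) := by
    intro d _
    obtain ⟨C, hC⟩ := hw
    refine ⟨C, fun p => ?_⟩
    rw [hf]
    simp only
    split_ifs
    · exact hC p
    · rw [abs_zero]
      exact (abs_nonneg _).trans (hC p)
  have h1 : (fun p => ∑ d ∈ D, f d p) = S.indicator w := by
    funext p
    by_cases hp : p ∈ S
    · rw [Set.indicator_of_mem hp, Finset.sum_eq_single (Φ p - p)]
      · rw [hf]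
        simp [hp]
      · intro d _ hd
        rw [hf]
        simp only
        rw [if_neg]
        rintro ⟨_, h⟩
        exact hd (by rw [h]; abel)
      · intro h
        exact absurd (hD p hp) h
    · rw [Set.indicator_of_notMem hp]
      refine Finset.sum_eq_zero fun d _ => ?_
      rw [hf]
      simp [hp]
  rw [← h1, ← m.transport D (fun d => d) hfb]
  refine m.mono _ _ (Bd.sum D fun d hd => (hfb d hd).comp fun z => z - d) hu fun q => ?_
  by_cases hex : ∃ d ∈ D, q - d ∈ S ∧ Φ (q - d) = q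
  · obtain ⟨d, hd, hS, hΦ⟩ := hex
    rw [Finset.sum_eq_single d]
    · rw [hf]
      simp only
      rw [if_pos ⟨hS, by rw [hΦ]; abel⟩]
      have := hle _ hS
      rwa [hΦ] at this
    · intro d' _ hne
      rw [hf]
      simp only
      rw [if_neg]
      rintro ⟨hS', h'⟩
      have h2 : Φ (q - d') = Φ (q - d) := by
        rw [h', hΦ]
        abel
      have h3 := hinj hS' hS h2
      apply hne
      have : d' = q - (q - d') := by abel
      rw [this, h3]
      abel
    · intro h
      exact absurd hd h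
  · push Not at hex
    rw [Finset.sum_eq_zero]
    · exact hu0 q
    · intro d hd
      rw [hf]
      simp only
      rw [if_neg]
      rintro ⟨hS', h'⟩
      apply hex d hd hS'
      rw [h']
      abel

/-- the mean obtained by exchanging the two coordinates -/
def swap : Mean where
  M f := m.M (fun z => f z.swap)
  add _ _ hf hg := m.add _ _ (hf.comp _) (hg.comp _)
  smul c _ hf := m.smul c _ (hf.comp _)
  mono _ _ hf hg h := m.mono _ _ (hf.comp _) (hg.comp _) fun _ => h _
  shift f hf d := m.shift (fun z => f z.swap) (hf.comp _) d.swap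
  one := m.one

lemma swap_apply (f : Z2 → ℝ) : m.swap.M f = m.M (fun z => f z.swap) := rfl

end Mean

end Prc92
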