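import Pool.Agent.Prc92.Runs

/-!
# Run decomposition and the crossing relation
-/

namespace Prc92

open Finset Classical

variable {P : Set Z2} {U : ℕ} {N : ℕ}

/-- exchange of the coordinates -/
def sw (P : Set Z2) : Set Z2 := {p | p.swap ∈ P}

lemma mem_sw {P : Set Z2} {p : Z2} : p ∈ sw P ↔ p.swap ∈ P := Iff.rfl

lemma sw_sw (P : Set Z2) : sw (sw P) = P := by
  ext p
  simp [mem_sw]

lemma Fr_sw (P : Set Z2) (U : ℕ) (z : Z2) : Fr (sw P) U z ↔ Fr P U z.swap := by
  unfold Fr
  constructor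
  · intro h p hp ⟨h1, h2, h3, h4⟩
    exact h p.swap (by simpa [mem_sw] using hp) ⟨h3, h4, h1, h2⟩
  · intro h p hp ⟨h1, h2, h3, h4⟩
    exact h p.swap hp ⟨h3, h4, h1, h2⟩

/-- displacement of the cell `i` in row `t` -/
def dsp (x : ℕ × ℕ) : Z2 := ((x.2 : ℤ), -(x.1 : ℤ))

lemma bd_ite {A : Z2 → Prop} [∀ z, Decidable (A z)] {f : Z2 → ℝ} (hf : Bd f) :
    Bd (fun z => if A z then f z else 0) := by
  obtain ⟨C, hC⟩ := hf
  refine ⟨C, fun z => ?_⟩
  simp only
  split_ifs
  · exact hC z
  · rw [abs_zero]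
    exact (abs_nonneg _).trans (hC z)

lemma R_sum (hB : Bnd P U N) {p : Z2} (hp : p ∈ P) {t : ℕ} (ht : t < U) (F : ℕ → ℝ) :
    ∑ i ∈ Icc 1 N, (if R P U p t i then F i else 0) = ∑ i ∈ Icc 1 (g P U p t), F i := by
  rw [← Finset.sum_filter]
  congr 1
  ext i
  simp only [mem_filter, mem_Icc, R]
  have := g_le hB p t
  constructor
  · rintro ⟨_, _, _, h1, h2⟩
    exact ⟨h1, h2⟩
  · rintro ⟨h1, h2⟩
    exact ⟨⟨h1, h2.trans this⟩, hp, ht, h1, h2⟩

/-- decomposition of the free cells into runs -/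
lemma fubini (m : Mean) (hU : 0 < U) (hB : Bnd P U N) {f : Z2 → ℝ} (hf : Bd f) :
    m.M (fun c => if Fr P U c then f c else 0)
      = m.M (fun p => if p ∈ P then
          ∑ t ∈ range U, ∑ i ∈ Icc 1 (g P U p t), f (p.1 + i, p.2 - t) else 0) := by
  set φ : ℕ × ℕ → Z2 → ℝ := fun x p =>
    if R P U p x.1 x.2 then f (p.1 + x.2, p.2 - x.1) else 0 with hφ
  have hφb : ∀ x ∈ range U ×ˢ Icc 1 N, Bd (φ x) := fun x _ =>
    bd_ite (hf.comp fun p => (p.1 + x.2, p.2 - x.1))
  have h1 : (fun p => if p ∈ P then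
      ∑ t ∈ range U, ∑ i ∈ Icc 1 (g P U p t), f (p.1 + i, p.2 - t) else 0)
      = fun p => ∑ x ∈ range U ×ˢ Icc 1 N, φ x p := by
    funext p
    rw [Finset.sum_product]
    by_cases hp : p ∈ P
    · rw [if_pos hp]
      refine Finset.sum_congr rfl fun t ht => ?_
      exact (R_sum hB hp (Finset.mem_range.1 ht) fun i => f (p.1 + i, p.2 - t)).symm
    · rw [if_neg hp]
      symm
      refine Finset.sum_eq_zero fun t _ => Finset.sum_eq_zero fun i _ => ?_
      rw [hφ]
      simp only
      rw [if_neg]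
      exact fun h => hp h.1
  have h2 : (fun c => if Fr P U c then f c else 0)
      = fun c => ∑ x ∈ range U ×ˢ Icc 1 N, φ x (c - dsp x) := by
    funext c
    by_cases hc : Fr P U c
    · rw [if_pos hc]
      obtain ⟨p, t, i, hR, hpc⟩ := exists_R hB hc
      have hmem : (t, i) ∈ range U ×ˢ Icc 1 N := by
        rw [Finset.mem_product, Finset.mem_range, Finset.mem_Icc]
        exact ⟨hR.2.1, hR.2.2.1, hR.2.2.2.trans (g_le hB _ _)⟩
      have hsub : c - dsp (t, i) = p := by
        rw [hpc]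
        ext
        · simp [dsp]
        · simp [dsp]
      rw [Finset.sum_eq_single_of_mem (t, i) hmem]
      · rw [hsub, hφ]
        simp only
        rw [if_pos hR, hpc]
      · rintro ⟨t', i'⟩ _ hne
        rw [hφ]
        simp only
        rw [if_neg]
        intro hR'
        apply hne
        have := unique_R hU hR' hR (by rw [hpc]; simp [dsp]) (by rw [hpc]; simp [dsp])
        rw [this.2.1, this.2.2]
    · rw [if_neg hc]
      symm
      refine Finset.sum_eq_zero fun x _ => ?_
      rw [hφ]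
      simp only
      rw [if_neg]
      intro hR
      apply hc
      have := hR.free
      convert this using 1
      ext
      · simp [dsp]
      · simp [dsp]
  rw [h1, h2]
  exact m.transport _ dsp hφb

variable (P U)

/-- longest run of `p` -/
noncomputable def G (p : Z2) : ℕ := (range U).sup (g P U p)

/-- rows of longest runs -/
def Top (p : Z2) : Set ℕ := {t | t < U ∧ g P U p t = G P U p}

/-- first row of a longest run -/
noncomputable def t0 (p : Z2) : ℕ := sInf (Top P U p)

/-- last row of a longest run -/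
noncomputable def t1 (p : Z2) : ℕ := sSup (Top P U p)

variable {P U}

lemma g_le_G (p : Z2) {t : ℕ} (ht : t < U) : g P U p t ≤ G P U p :=
  Finset.le_sup (f := g P U p) (Finset.mem_range.2 ht)

lemma top_nonempty (hU : 0 < U) (p : Z2) : (Top P U p).Nonempty := by
  obtain ⟨t, ht, hm⟩ := Finset.exists_mem_eq_sup (range U) ⟨0, Finset.mem_range.2 hU⟩ (g P U p)
  exact ⟨t, Finset.mem_range.1 ht, hm.symm⟩

lemma top_bdd (p : Z2) : BddAbove (Top P U p) := ⟨U, fun _ ht => ht.1.le⟩

lemma t0_mem (hU : 0 < U) (p : Z2) : t0 P U p < U ∧ g P U p (t0 P U p) = G P U p :=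
  Nat.sInf_mem (top_nonempty hU p)

lemma t1_mem (hU : 0 < U) (p : Z2) : t1 P U p < U ∧ g P U p (t1 P U p) = G P U p :=
  Nat.sSup_mem (top_nonempty hU p) (top_bdd p)

lemma t0_le (p : Z2) {t : ℕ} (ht : t < U) (h : g P U p t = G P U p) : t0 P U p ≤ t :=
  Nat.sInf_le ⟨ht, h⟩

lemma le_t1 (p : Z2) {t : ℕ} (ht : t < U) (h : g P U p t = G P U p) : t ≤ t1 P U p :=
  le_csSup (top_bdd p) ⟨ht, h⟩

lemma G_le (hB : Bnd P U N) (p : Z2) : G P U p ≤ N :=
  Finset.sup_le fun t _ => g_le hB p t

/-- `f` of all `(p, t)` -/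
noncomputable def S (m : Mean) (P : Set Z2) (U : ℕ) (f : ℕ → ℝ) : ℝ :=
  m.M (fun p => if p ∈ P then ∑ t ∈ range U, f (g P U p t) else 0)

/-- the number of longest runs through a cell -/
noncomputable def χ (P : Set Z2) (U N : ℕ) (c : Z2) : ℝ :=
  ∑ x ∈ range U ×ˢ Icc 1 N,
    (if R P U (c - dsp x) x.1 x.2 ∧ x.1 = t1 P U (c - dsp x) then (1 : ℝ) else 0)

lemma χ_bd : Bd (χ P U N) := by
  refine Bd.sum _ fun x _ => ?_
  exact ((bd_ite (A := fun p => R P U p x.1 x.2 ∧ x.1 = t1 P U p) (Bd.const 1)).comp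
    fun c => c - dsp x)

lemma χ_nonneg (c : Z2) : 0 ≤ χ P U N c := by
  refine Finset.sum_nonneg fun x _ => ?_
  split_ifs <;> norm_num

lemma χ_mean (m : Mean) (hU : 0 < U) (hB : Bnd P U N) :
    m.M (χ P U N) = m.M (fun p => if p ∈ P then (G P U p : ℝ) else 0) := by
  set φ : ℕ × ℕ → Z2 → ℝ := fun x p =>
    if R P U p x.1 x.2 ∧ x.1 = t1 P U p then 1 else 0 with hφ
  have hφb : ∀ x ∈ range U ×ˢ Icc 1 N, Bd (φ x) := fun x _ => bd_ite (Bd.const 1)
  have h := m.transport (range U ×ˢ Icc 1 N) dsp hφb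
  have h1 : (fun c => ∑ x ∈ range U ×ˢ Icc 1 N, φ x (c - dsp x)) = χ P U N := rfl
  rw [← h1, h]
  congr 1
  funext p
  rw [Finset.sum_product]
  by_cases hp : p ∈ P
  · rw [if_pos hp, Finset.sum_eq_single_of_mem (t1 P U p)
      (Finset.mem_range.2 (t1_mem hU p).1)]
    · have : ∀ i ∈ Icc 1 N, φ (t1 P U p, i) p
          = if R P U p (t1 P U p) i then (fun _ => (1 : ℝ)) i else 0 := by
        intro i _
        rw [hφ]
        simp
      rw [Finset.sum_congr rfl this, R_sum hB hp (t1_mem hU p).1]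
      simp [(t1_mem hU p).2]
    · intro t _ hne
      refine Finset.sum_eq_zero fun i _ => ?_
      rw [hφ]
      simp only
      rw [if_neg]
      exact fun h => hne h.2
  · rw [if_neg hp]
    refine Finset.sum_eq_zero fun t _ => Finset.sum_eq_zero fun i _ => ?_
    rw [hφ]
    simp only
    rw [if_neg]
    exact fun h => hp h.1.1

lemma χ_free {c : Z2} (hc : ¬ Fr P U c) : χ P U N c = 0 := by
  refine Finset.sum_eq_zero fun x _ => ?_
  rw [if_neg]
  rintro ⟨hR, _⟩
  apply hc
  have := hR.free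
  convert this using 1
  ext
  · simp [dsp]
  · simp [dsp]

/-- the mean of the longest runs, sorted by the vertical runs they cross -/
lemma cross_mean (m : Mean) (hU : 0 < U) (hB : Bnd P U N) {N' : ℕ} (hB' : Bnd (sw P) U N') :
    m.M (fun p => if p ∈ P then (G P U p : ℝ) else 0)
      = m.swap.M (fun q => if q ∈ sw P then ∑ s ∈ range U,
          ∑ j ∈ Icc 1 (g (sw P) U q s), χ P U N (q.2 - s, q.1 + j) else 0) := by
  rw [← χ_mean m hU hB]
  have h := fubini m.swap hU hB' (f := fun c => χ P U N c.swap) (χ_bd.comp _)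
  have e : m.swap.M (fun c => if Fr (sw P) U c then χ P U N c.swap else 0) = m.M (χ P U N) := by
    rw [Mean.swap_apply]
    congr 1
    funext c
    by_cases hc : Fr P U c
    · rw [if_pos (by rw [Fr_sw]; simpa using hc)]
      simp
    · rw [if_neg (by rw [Fr_sw]; simpa using hc), χ_free hc]
  rw [← e, h]
  rfl

/-- a vertical run of length `J` is crossed by at least `J / U` longest runs -/
lemma cross_local (hU : 0 < U) (hB : Bnd P U N) {N' : ℕ} (hB' : Bnd (sw P) U N') {q : Z2}
    (hq : q ∈ sw P) {s : ℕ} (hs : s < U) :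
    ∃ n : ℕ, ∑ j ∈ Icc 1 (g (sw P) U q s), χ P U N (q.2 - s, q.1 + j) = n ∧
      g (sw P) U q s ≤ U * n := by
  set J := g (sw P) U q s with hJ
  -- the triples
  set T : Finset (ℕ × (ℕ × ℕ)) := ((Icc 1 J) ×ˢ (range U ×ˢ Icc 1 N)).filter
    (fun y => R P U (((q.2 - s, q.1 + y.1) : Z2) - dsp y.2) y.2.1 y.2.2
      ∧ y.2.1 = t1 P U (((q.2 - s, q.1 + y.1) : Z2) - dsp y.2)) with hT
  have hcard : ∑ j ∈ Icc 1 J, χ P U N (q.2 - s, q.1 + j) = (T.card : ℝ) := by
    rw [hT, Finset.card_filter]
    push_cast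
    rw [Finset.sum_product]
    rfl
  set π : ℕ × (ℕ × ℕ) → Z2 := fun y => ((q.2 - s, q.1 + y.1) : Z2) - dsp y.2 with hπ
  -- free cells of the vertical run
  have hfree : ∀ j : ℕ, 1 ≤ j → j ≤ J → Fr P U (q.2 - s, q.1 + j) := by
    intro j h1 h2
    have := (show R (sw P) U q s j from ⟨hq, hs, h1, h2⟩).free
    rw [Fr_sw] at this
    simpa using this
  have hleft : ∀ j ∈ Icc 1 J, ∃ p : Z2, ∃ t i : ℕ, R P U p t i ∧
      ((q.2 - s, q.1 + j) : Z2) = (p.1 + i, p.2 - t) := by
    intro j hj
    rw [Finset.mem_Icc] at hj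
    exact exists_R hB (hfree j hj.1 hj.2)
  choose! F hF using hleft
  -- the left squares are in the image
  have hmaps : ∀ j ∈ Icc 1 J, F j ∈ T.image π := by
    intro j hj
    obtain ⟨t, i, hR, he⟩ := hF j hj
    rw [Finset.mem_Icc] at hj
    have he1 : q.2 - s = (F j).1 + i := congrArg Prod.fst he
    have he2 : q.1 + j = (F j).2 - t := congrArg Prod.snd he
    set p := F j with hp
    have hR1 : R P U p (t1 P U p) i := by
      refine ⟨hR.1, (t1_mem hU p).1, hR.2.2.1, ?_⟩
      rw [(t1_mem hU p).2]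
      exact hR.2.2.2.trans (g_le_G p hR.2.1)
    -- all rows between are free in this column
    have hbetw : ∀ y : ℤ, (p.2 - t ≤ y ∧ y ≤ p.2 - t1 P U p ∨ p.2 - t1 P U p ≤ y ∧ y ≤ p.2 - t) →
        Fr P U (q.2 - s, y) := by
      intro y hy
      have hR2 : R P U p (p.2 - y).toNat i := by
        rcases hy with hy | hy
        · exact contig hB hR1 hR (by omega) (by omega)
        · exact contig hB hR hR1 (by omega) (by omega)
      have := hR2.free
      rw [← he1] at this
      have e : p.2 - (((p.2 - y).toNat : ℕ) : ℤ) = y := by omega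
      rw [e] at this
      exact this
    have hlow : q.1 < p.2 - t1 P U p := by
      by_contra hcon
      push Not at hcon
      have h1 := hbetw q.1 (Or.inr ⟨hcon, by omega⟩)
      have h2 := not_free_self hU (P := P) (p := q.swap) hq hU hs
      simp only [Prod.fst_swap, Prod.snd_swap, Nat.cast_zero, sub_zero] at h2
      exact h2 h1
    have hupp : p.2 - t1 P U p ≤ q.1 + J := by
      by_contra hcon
      push Not at hcon
      have h1 := hbetw (q.1 + J + 1) (Or.inl ⟨by omega, by omega⟩)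
      have h3 : ¬ (∀ j : ℕ, 1 ≤ j → j ≤ J + 1 → Fr (sw P) U (q.1 + j, q.2 - s)) := by
        intro h
        by_cases hJ0 : 1 ≤ J
        · have hcan := (show R (sw P) U q s 1 from ⟨hq, hs, le_rfl, hJ0⟩).can
          have := (R_iff (P := sw P) hB' (p := q) (t := s) (i := J + 1)).2
            ⟨hq, hs, by omega, hcan, h⟩
          have h5 := this.2.2.2
          omega
        · omega
      apply h3
      intro j hj1 hj2
      rw [Fr_sw]
      simp only [Prod.swap_prod_mk]
      by_cases hjJ : j ≤ J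
      · exact hfree j hj1 hjJ
      · have : j = J + 1 := by omega
        rw [this]
        push_cast
        rw [← add_assoc]
        exact h1
    rw [Finset.mem_image]
    refine ⟨((p.2 - t1 P U p - q.1).toNat, (t1 P U p, i)), ?_, ?_⟩
    · have hpe : (((q.2 - s, q.1 + (((p.2 - t1 P U p - q.1).toNat : ℕ) : ℤ)) : Z2)
          - dsp (t1 P U p, i)) = p := by
        ext
        · simp only [dsp, Prod.fst_sub]
          omega
        · simp only [dsp, Prod.snd_sub]
          omega
      rw [hT, Finset.mem_filter, Finset.mem_product, Finset.mem_product]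
      simp only
      rw [hpe]
      refine ⟨⟨?_, ?_, ?_⟩, hR1, rfl⟩
      · rw [Finset.mem_Icc]
        omega
      · exact Finset.mem_range.2 (t1_mem hU p).1
      · rw [Finset.mem_Icc]
        exact ⟨hR.2.2.1, hR.2.2.2.trans (g_le hB _ _)⟩
    · rw [hπ]
      ext
      · simp only [dsp, Prod.fst_sub]
        omega
      · simp only [dsp, Prod.snd_sub]
        omega
  have hfib : ∀ b ∈ T.image π, ((Icc 1 J).filter (fun j => F j = b)).card ≤ U := by
    intro b _
    have hsub : ((Icc 1 J).filter (fun j => F j = b)).card ≤ (range U).card := by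
      refine Finset.card_le_card_of_injOn (fun j => (b.2 - q.1 - j).toNat) ?_ ?_
      · intro j hj
        rw [Finset.mem_coe, Finset.mem_filter] at hj
        obtain ⟨t, i, hR, he⟩ := hF j hj.1
        have he2 : q.1 + j = (F j).2 - t := congrArg Prod.snd he
        rw [hj.2] at he2
        rw [Finset.mem_coe, Finset.mem_range]
        have := hR.2.1
        simp only
        omega
      · intro j hj j' hj' hjj
        rw [Finset.mem_coe, Finset.mem_filter] at hj hj'
        obtain ⟨t, i, hR, he⟩ := hF j hj.1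
        obtain ⟨t', i', hR', he'⟩ := hF j' hj'.1
        have he2 : q.1 + j = (F j).2 - t := congrArg Prod.snd he
        have he2' : q.1 + j' = (F j').2 - t' := congrArg Prod.snd he'
        rw [hj.2] at he2
        rw [hj'.2] at he2'
        simp only at hjj
        omega
    simpa using hsub
  have hle := Finset.card_le_mul_card_image_of_maps_to hmaps U hfib
  have hle2 : (Icc 1 J).card ≤ U * T.card :=
    hle.trans (Nat.mul_le_mul_left _ Finset.card_image_le)
  rw [Nat.card_Icc, Nat.add_sub_cancel] at hle2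
  exact ⟨T.card, hcard, hle2⟩

end Prc92
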