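import Pool.Agent.Prc92.Mean

/-!
# Free cells and runs

`P` is a set of grid points, `U ≥ 1`.  A cell `z` is free if the block `z + [0,U)²` contains no point of
`P`.  For `p ∈ P` and `t < U` the cell `(p.1, p.2 - t)` is not free.  The run of free cells starting at
`(p.1 + 1, p.2 - t)` has length `g P U p t` (`0` if this run is assigned to another point of the column).
-/

namespace Prc92

open Finset Classical

variable (P : Set Z2) (U : ℕ)

/-- free cell -/
def Fr (z : Z2) : Prop :=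
  ∀ p ∈ P, ¬ (z.1 ≤ p.1 ∧ p.1 < z.1 + U ∧ z.2 ≤ p.2 ∧ p.2 < z.2 + U)

/-- number of consecutive free cells from `z` to the right -/
noncomputable def rl (z : Z2) : ℕ := sInf {i : ℕ | ¬ Fr P U (z.1 + i, z.2)}

/-- `p` is the lowest point of its column seen from row `p.2 - t` -/
def Can (p : Z2) (t : ℕ) : Prop := ∀ y : ℤ, p.2 - t ≤ y → y < p.2 → (p.1, y) ∉ P

/-- length of the run to the right of `p` in row `p.2 - t` -/
noncomputable def g (p : Z2) (t : ℕ) : ℕ := if Can P p t then rl P U (p.1 + 1, p.2 - t) else 0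

/-- the cell `(p.1 + i, p.2 - t)` belongs to the run of `p` in row `p.2 - t` -/
def R (p : Z2) (t i : ℕ) : Prop := p ∈ P ∧ t < U ∧ 1 ≤ i ∧ i ≤ g P U p t

/-- no row has more than `N` consecutive free cells -/
def Bnd (N : ℕ) : Prop := ∀ z : Z2, ∃ i : ℕ, i ≤ N ∧ ¬ Fr P U (z.1 + i, z.2)

variable {P U} {N : ℕ}

lemma rl_free {z : Z2} {i : ℕ} (h : i < rl P U z) : Fr P U (z.1 + i, z.2) := by
  by_contra hn
  exact Nat.notMem_of_lt_sInf h hn

lemma rl_end (hB : Bnd P U N) (z : Z2) : ¬ Fr P U (z.1 + rl P U z, z.2) := by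
  obtain ⟨i, _, hi⟩ := hB z
  exact Nat.sInf_mem (s := {i : ℕ | ¬ Fr P U (z.1 + i, z.2)}) ⟨i, hi⟩

lemma rl_le (hB : Bnd P U N) (z : Z2) : rl P U z ≤ N := by
  obtain ⟨i, hi, hi'⟩ := hB z
  exact (Nat.sInf_le (s := {i : ℕ | ¬ Fr P U (z.1 + i, z.2)}) hi').trans hi

lemma g_le (hB : Bnd P U N) (p : Z2) (t : ℕ) : g P U p t ≤ N := by
  unfold g
  split_ifs
  · exact rl_le hB _
  · exact Nat.zero_le _

lemma R.free {p : Z2} {t i : ℕ} (h : R P U p t i) : Fr P U (p.1 + i, p.2 - t) := by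
  obtain ⟨_, _, h1, h2⟩ := h
  unfold g at h2
  split_ifs at h2 with hc
  · have := rl_free (P := P) (U := U) (z := (p.1 + 1, p.2 - t)) (i := i - 1) (by omega)
    have e : ((p.1 + 1 : ℤ) + ((i - 1 : ℕ) : ℤ)) = p.1 + i := by omega
    simp only at this
    rw [e] at this
    exact this
  · omega

lemma R.can {p : Z2} {t i : ℕ} (h : R P U p t i) : Can P p t := by
  obtain ⟨_, _, h1, h2⟩ := h
  unfold g at h2
  split_ifs at h2 with hc
  · exact hc
  · omega

lemma R.mono {p : Z2} {t i j : ℕ} (h : R P U p t i) (h1 : 1 ≤ j) (h2 : j ≤ i) : R P U p t j :=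
  ⟨h.1, h.2.1, h1, h2.trans h.2.2.2⟩

/-- characterisation of `R` -/
lemma R_iff (hB : Bnd P U N) {p : Z2} {t i : ℕ} :
    R P U p t i ↔ p ∈ P ∧ t < U ∧ 1 ≤ i ∧ Can P p t ∧
      ∀ j : ℕ, 1 ≤ j → j ≤ i → Fr P U (p.1 + j, p.2 - t) := by
  constructor
  · intro h
    exact ⟨h.1, h.2.1, h.2.2.1, h.can, fun j h1 h2 => (h.mono h1 h2).free⟩
  · rintro ⟨h1, h2, h3, h4, h5⟩
    refine ⟨h1, h2, h3, ?_⟩
    unfold g
    rw [if_pos h4]
    by_contra hlt
    push Not at hlt
    have := rl_end hB (p.1 + 1, p.2 - t)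
    apply this
    have h6 := h5 (rl P U (p.1 + 1, p.2 - t) + 1) (by omega) (by omega)
    have e : ((p.1 + 1 : ℤ) + ((rl P U (p.1 + 1, p.2 - t) : ℕ) : ℤ))
      = p.1 + ((rl P U (p.1 + 1, p.2 - t) + 1 : ℕ) : ℤ) := by
      push_cast
      ring
    simp only
    rw [e]
    exact h6

/-- the point itself is not free -/
lemma not_free_self (_hU : 0 < U) {p : Z2} (hp : p ∈ P) {t s : ℕ} (ht : t < U) (hs : s < U) :
    ¬ Fr P U (p.1 - s, p.2 - t) := by
  intro h
  exact h p hp ⟨by simp only; omega, by simp only; omega, by simp only; omega, by simp only; omega⟩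

lemma exists_cover {z : Z2} (h : ¬ Fr P U z) :
    ∃ q ∈ P, z.1 ≤ q.1 ∧ q.1 < z.1 + U ∧ z.2 ≤ q.2 ∧ q.2 < z.2 + U := by
  unfold Fr at h
  push Not at h
  exact h

/-- every free cell belongs to a run -/
lemma exists_R (hB : Bnd P U N) {c : Z2} (hc : Fr P U c) :
    ∃ p : Z2, ∃ t i : ℕ, R P U p t i ∧ c = (p.1 + i, p.2 - t) := by
  -- go left to the first non-free cell
  have hex : ∃ i : ℕ, ¬ Fr P U (c.1 - i, c.2) := by
    obtain ⟨i, hi, hi'⟩ := hB (c.1 - N, c.2)
    refine ⟨N - i, ?_⟩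
    have e : c.1 - ((N - i : ℕ) : ℤ) = c.1 - N + i := by omega
    rw [e]
    exact hi'
  set i := Nat.find hex with hi
  have hi1 : ¬ Fr P U (c.1 - i, c.2) := Nat.find_spec hex
  have hi2 : ∀ j < i, Fr P U (c.1 - j, c.2) := fun j hj => by
    have := Nat.find_min hex hj
    simpa using this
  have hi0 : 1 ≤ i := by
    by_contra h
    have : i = 0 := by omega
    rw [this] at hi1
    apply hi1
    simpa using hc
  obtain ⟨q, hq, h1, h2, h3, h4⟩ := exists_cover hi1
  simp only at h1 h2 h3 h4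
  have hq1 : q.1 = c.1 - i := by
    by_contra hne
    have hf := hi2 (i - 1) (by omega)
    apply hf q hq
    refine ⟨?_, ?_, h3, h4⟩
    · simp only
      omega
    · simp only
      omega
  -- the lowest such point
  have hex2 : ∃ t : ℕ, t < U ∧ ((c.1 - i, c.2 + t) : Z2) ∈ P := by
    refine ⟨(q.2 - c.2).toNat, by omega, ?_⟩
    have e : ((c.1 - i, c.2 + ((q.2 - c.2).toNat : ℤ)) : Z2) = q := by
      ext
      · simp only
        omega
      · simp only
        omega
    rw [e]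
    exact hq
  set t := Nat.find hex2 with ht
  have ht1 := Nat.find_spec hex2
  rw [← ht] at ht1
  have ht2 : ∀ s < t, ¬ (s < U ∧ ((c.1 - i, c.2 + s) : Z2) ∈ P) := fun s hs =>
    Nat.find_min hex2 hs
  refine ⟨(c.1 - i, c.2 + t), t, i, ?_, ?_⟩
  · rw [R_iff hB]
    refine ⟨ht1.2, ht1.1, hi0, ?_, ?_⟩
    · intro y hy1 hy2 hy3
      simp only at hy1 hy2 hy3
      apply ht2 (y - c.2).toNat (by omega)
      refine ⟨by omega, ?_⟩
      have e : c.2 + ((y - c.2).toNat : ℤ) = y := by omega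
      rw [e]
      exact hy3
    · intro j hj1 hj2
      have := hi2 (i - j) (by omega)
      have e1 : c.1 - ((i - j : ℕ) : ℤ) = c.1 - i + j := by omega
      have e2 : c.2 + (t : ℤ) - t = c.2 := by ring
      simp only
      rw [e2, ← e1]
      exact this
  · ext
    · simp
    · simp

/-- the run of a free cell is unique -/
lemma unique_R (hU : 0 < U) {p p' : Z2} {t i t' i' : ℕ} (h : R P U p t i) (h' : R P U p' t' i')
    (e1 : p.1 + i = p'.1 + i') (e2 : p.2 - t = p'.2 - t') : p = p' ∧ t = t' ∧ i = i' := by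
  -- same column
  have key : ∀ (p p' : Z2) (t i t' i' : ℕ), R P U p t i → R P U p' t' i' →
      p.1 + i = p'.1 + i' → p.2 - t = p'.2 - t' → ¬ p.1 < p'.1 := by
    intro p p' t i t' i' h h' e1 e2 hlt
    have h2 := (h.mono (j := (p'.1 - p.1).toNat) (by omega) (by have := h'.2.2.1; omega)).free
    have e3 : p.1 + (((p'.1 - p.1).toNat : ℕ) : ℤ) = p'.1 := by omega
    rw [e3, e2] at h2
    have := not_free_self hU h'.1 h'.2.1 hU
    simp only [Nat.cast_zero, sub_zero] at this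
    exact this h2
  have k1 := key p p' t i t' i' h h' e1 e2
  have k2 := key p' p t' i' t i h' h e1.symm e2.symm
  have hx : p.1 = p'.1 := by omega
  have key2 : ∀ (p p' : Z2) (t i t' i' : ℕ), R P U p t i → R P U p' t' i' →
      p.1 = p'.1 → p.2 - t = p'.2 - t' → ¬ p.2 < p'.2 := by
    intro p p' t i t' i' h h' e1 e2 hlt
    have := h'.can p.2 (by omega) hlt
    apply this
    rw [← e1]
    exact h.1
  have k3 := key2 p p' t i t' i' h h' hx e2
  have k4 := key2 p' p t' i' t i h' h hx.symm e2.symm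
  have hy : p.2 = p'.2 := by omega
  refine ⟨Prod.ext hx hy, by omega, by omega⟩

/-- the rows of `p` which reach a given column form an interval -/
lemma contig (hB : Bnd P U N) {p : Z2} {t₁ t₂ t₃ i : ℕ} (h1 : R P U p t₁ i) (h3 : R P U p t₃ i)
    (h12 : t₁ ≤ t₂) (h23 : t₂ ≤ t₃) : R P U p t₂ i := by
  rw [R_iff hB]
  refine ⟨h1.1, lt_of_le_of_lt h23 h3.2.1, h1.2.2.1, ?_, ?_⟩
  · intro y hy1 hy2
    exact h3.can y (by omega) hy2
  · intro j hj1 hj2 q hq hcov
    obtain ⟨c1, c2, c3, c4⟩ := hcov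
    simp only at c1 c2 c3 c4
    have f1 := (h1.mono hj1 hj2).free q hq
    have f3 := (h3.mono hj1 hj2).free q hq
    have ht3 := h3.2.1
    simp only at f1 f3
    by_cases hc : q.2 < p.2 - t₃ + U
    · exact f3 ⟨c1, c2, by omega, hc⟩
    · exact f1 ⟨c1, c2, by omega, by omega⟩

end Prc92
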